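import Pool.Agent.Y321.SE2.Link

/-!
# The basic move for positive determinant
-/

set_option autoImplicit false

namespace Pool.Agent.Y321.SE2

open Matrix Pool.Agent.TH441.SSE2

/-- The dual vectors of the presentation. -/
def UB (a w : ℤ) : Matrix (Fin 3) (Fin 2) ℤ := !![1, 0; -a, w; 0, 1]

/-- The vectors of the presentation of `[[z, m], [c, y]]`. -/
def VB (z m c y a w : ℤ) : Matrix (Fin 2) (Fin 3) ℤ := !![z, 0, m; c + a, 1, y - w]

/-- The presentation. -/
def BK (z m c y a w : ℤ) : Matrix (Fin 3) (Fin 3) ℤ := UB a w * VB z m c y a w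

lemma bk_start (z m c y w : ℤ) (hz : 0 ≤ z) (hm : 0 ≤ m) (hc : 0 ≤ c) (hw : 0 ≤ w)
    (hwy : w ≤ y) : Q !![z, m; c, y] (BK z m c y 0 w) := by
  have h := Q.move (UB 0 w) (VB z m c y 0 w) (1 : Matrix (Fin 2) (Fin 2) ℤ)
    !![z, m; c, y] (UB 0 w) ?_ ?_ ?_ ?_
  · rw [Matrix.one_mul] at h
    exact h.symm
  · intro i j; fin_cases i <;> fin_cases j <;> simp [UB, hw]
  · rw [Matrix.one_mul]
    intro i j; fin_cases i <;> fin_cases j <;> simp [VB] <;> linarith
  · rw [Matrix.mul_one]
  · ext i j; fin_cases i <;> fin_cases j <;> simp [UB, VB, Matrix.mul_apply, Fin.sum_univ_succ]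

lemma bk_a (z m c y a w : ℤ) (hz : 0 ≤ z) (hm : 0 ≤ m) (hca : 0 ≤ c + a) (hw : 0 ≤ w)
    (hwy : w ≤ y) (h1 : (a + 1) * z ≤ w * (c + a)) (h2 : (a + 1) * m ≤ w * (y - w)) :
    Q (BK z m c y a w) (BK z m c y (a + 1) w) := by
  have e1 : Q (BK z m c y a w)
      ((!![1, 0; 1, 0; -(a + 1), w; 0, 1] : Matrix (Fin 4) (Fin 2) ℤ) *
        (!![z, 0, 0, m; c + a, 1, 1, y - w] : Matrix (Fin 2) (Fin 4) ℤ)) := by
    refine Q.move (UB a w) (VB z m c y a w) _ _
      (!![1, 0, 0, 0; 0, 1, 1, 0; 0, 0, 0, 1]) ?_ ?_ ?_ ?_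
    · intro i j; fin_cases i <;> fin_cases j <;> simp
    · intro i j
      fin_cases i <;> fin_cases j <;>
        simp [VB, Matrix.mul_apply, Fin.sum_univ_succ] <;> linarith
    · ext i j; fin_cases i <;> fin_cases j <;>
        simp [UB, Matrix.mul_apply, Fin.sum_univ_succ] <;> ring
    · ext i j; fin_cases i <;> fin_cases j <;>
        simp [VB, Matrix.mul_apply, Fin.sum_univ_succ]
  have e2 : Q ((!![1, 0; 1, 0; -(a + 1), w; 0, 1] : Matrix (Fin 4) (Fin 2) ℤ) *
        (!![z, 0, 0, m; c + a, 1, 1, y - w] : Matrix (Fin 2) (Fin 4) ℤ))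
      (BK z m c y (a + 1) w) := by
    refine Q.move _ _ (UB (a + 1) w) (VB z m c y (a + 1) w)
      (!![1, 0, 0; 1, 0, 0; 0, 1, 0; 0, 0, 1]) ?_ ?_ ?_ ?_
    · intro i j; fin_cases i <;> fin_cases j <;> simp
    · intro i j
      fin_cases i <;> fin_cases j <;>
        simp [UB, Matrix.mul_apply, Fin.sum_univ_succ] <;> linarith
    · ext i j; fin_cases i <;> fin_cases j <;>
        simp [UB, Matrix.mul_apply, Fin.sum_univ_succ]
    · ext i j; fin_cases i <;> fin_cases j <;>
        simp [VB, Matrix.mul_apply, Fin.sum_univ_succ] <;> ring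
  exact e1.trans e2

lemma bk_w (z m c y a w e : ℤ) (hz : 0 ≤ z) (hm : 0 ≤ m) (hca : 0 ≤ c + a) (hw : 0 ≤ w - e)
    (he : 0 ≤ e) (hwy : w ≤ y) (h1 : a * z ≤ (w - e) * (c + a))
    (h2 : a * m ≤ (w - e) * (y - w)) :
    Q (BK z m c y a w) (BK z m c y a (w - e)) := by
  have e1 : Q (BK z m c y a w)
      ((!![1, 0; -a, w - e; 0, e; 0, 1] : Matrix (Fin 4) (Fin 2) ℤ) *
        (!![z, 0, 0, m; c + a, 1, 1, y - w] : Matrix (Fin 2) (Fin 4) ℤ)) := by
    refine Q.move (UB a w) (VB z m c y a w) _ _
      (!![1, 0, 0, 0; 0, 1, 1, 0; 0, 0, 0, 1]) ?_ ?_ ?_ ?_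
    · intro i j; fin_cases i <;> fin_cases j <;> simp
    · intro i j
      have k1 : 0 ≤ e * (c + a) := mul_nonneg he hca
      have k2 : 0 ≤ e * (y - w) := mul_nonneg he (by linarith)
      fin_cases i <;> fin_cases j <;>
        simp [VB, Matrix.mul_apply, Fin.sum_univ_succ] <;> linarith
    · ext i j; fin_cases i <;> fin_cases j <;>
        simp [UB, Matrix.mul_apply, Fin.sum_univ_succ]
    · ext i j; fin_cases i <;> fin_cases j <;>
        simp [VB, Matrix.mul_apply, Fin.sum_univ_succ]
  have e2 : Q ((!![1, 0; -a, w - e; 0, e; 0, 1] : Matrix (Fin 4) (Fin 2) ℤ) *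
        (!![z, 0, 0, m; c + a, 1, 1, y - w] : Matrix (Fin 2) (Fin 4) ℤ))
      (BK z m c y a (w - e)) := by
    refine Q.move _ _ (UB a (w - e)) (VB z m c y a (w - e))
      (!![1, 0, 0; 0, 1, 0; 0, 0, e; 0, 0, 1]) ?_ ?_ ?_ ?_
    · intro i j; fin_cases i <;> fin_cases j <;> simp [he]
    · intro i j
      fin_cases i <;> fin_cases j <;>
        simp [UB, Matrix.mul_apply, Fin.sum_univ_succ] <;> linarith
    · ext i j; fin_cases i <;> fin_cases j <;>
        simp [UB, Matrix.mul_apply, Fin.sum_univ_succ]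
    · ext i j; fin_cases i <;> fin_cases j <;>
        simp [VB, Matrix.mul_apply, Fin.sum_univ_succ] <;> ring
  exact e1.trans e2

lemma bk_end (z m c y a w : ℤ) (hz : 0 ≤ z) (hm : 0 ≤ m) (hca : c + a = z) (hwy : y - w = m)
    (haw : a ≤ w) (hw : 0 ≤ w) : Q !![z + m, m; w - a, w] (BK z m c y a w) := by
  have h := Q.move (!![z, m; -a, w]) (!![1, 0; 1, 1]) (UB a w) (VB z m c y a w)
    (!![z, 0, m; 0, 1, 0]) ?_ ?_ ?_ ?_
  · have e : (!![z, m; -a, w] * !![1, 0; 1, 1] : Matrix (Fin 2) (Fin 2) ℤ) =
        !![z + m, m; w - a, w] := by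
      ext i j; fin_cases i <;> fin_cases j <;>
        simp [Matrix.mul_apply, Fin.sum_univ_succ] <;> ring
    rw [e] at h
    exact h
  · intro i j; fin_cases i <;> fin_cases j <;> simp [hz, hm]
  · intro i j
    fin_cases i <;> fin_cases j <;>
      simp [UB, Matrix.mul_apply, Fin.sum_univ_succ] <;> linarith
  · ext i j; fin_cases i <;> fin_cases j <;>
      simp [UB, Matrix.mul_apply, Fin.sum_univ_succ]
  · ext i j; fin_cases i <;> fin_cases j <;>
      simp [VB, Matrix.mul_apply, Fin.sum_univ_succ, hca, hwy]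

/-- The move for positive determinant. -/
lemma baker (z m c y : ℤ) (hc : 1 ≤ c) (hcz : c < z) (hm : 1 ≤ m) (hy : 2 * z ≤ y)
    (hn : z - c + 1 ≤ y - m) : Q !![z, m; c, y] !![z + m, m; c + y - z - m, y - m] := by
  have hz : 0 ≤ z := by linarith
  -- the bound for `a₀ m`
  have hb : (z - c) * m ≤ z * (y - z) := by
    have h1 : (z - c) * m ≤ (z - c) * (y - (z - c)) :=
      mul_le_mul_of_nonneg_left (by linarith) (by linarith)
    have h2 : 0 ≤ c * (y - 2 * z + c) := mul_nonneg (by linarith) (by linarith)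
    have e : z * (y - z) - (z - c) * (y - (z - c)) = c * (y - 2 * z + c) := by ring
    linarith
  have s0 := bk_start z m c y z hz (by linarith) (by linarith) hz (by linarith)
  have s1 : ∀ n : ℕ, (n : ℤ) ≤ z - c → Q !![z, m; c, y] (BK z m c y n z) := by
    intro n
    induction n with
    | zero => intro _; simpa using s0
    | succ n ih =>
      intro hn'
      push_cast at hn' ⊢
      have hn0 : (0 : ℤ) ≤ n := Int.natCast_nonneg n
      refine (ih (by linarith)).trans (bk_a z m c y n z hz (by linarith) (by linarith) hz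
        (by linarith) ?_ ?_)
      · have : (n + 1 : ℤ) * z ≤ (c + n) * z := mul_le_mul_of_nonneg_right (by linarith) hz
        linarith
      · have : (n + 1 : ℤ) * m ≤ (z - c) * m := mul_le_mul_of_nonneg_right hn' (by linarith)
        linarith
  have s2 := s1 (z - c).toNat (by rw [Int.toNat_of_nonneg (by linarith)])
  rw [Int.toNat_of_nonneg (by linarith)] at s2
  -- change `w` from `z` to `y - m`
  have s3 : Q (BK z m c y (z - c) z) (BK z m c y (z - c) (y - m)) := by
    rcases le_or_gt z (y - m) with h1 | h1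
    · have h := bk_w z m c y (z - c) (y - m) (y - m - z) hz (by linarith) (by linarith)
        (by linarith) (by linarith) (by linarith)
        (by
          have e : (y - m - (y - m - z)) * (c + (z - c)) = z * z := by ring
          rw [e]; exact mul_le_mul_of_nonneg_right (by linarith) hz)
        (by
          have e : (y - m - (y - m - z)) * (y - (y - m)) = z * m := by ring
          rw [e]; exact mul_le_mul_of_nonneg_right (by linarith) (by linarith))
      have e : y - m - (y - m - z) = z := by ring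
      rw [e] at h
      exact h.symm
    · have key : ∀ k : ℕ, (k : ℤ) ≤ z - (y - m) →
          Q (BK z m c y (z - c) z) (BK z m c y (z - c) (z - k)) := by
        intro k
        induction k with
        | zero => intro _; simpa using Q.refl (BK z m c y (z - c) z)
        | succ k ih =>
          intro hk
          push_cast at hk
          have hk0 : (0 : ℤ) ≤ k := Int.natCast_nonneg k
          have h := bk_w z m c y (z - c) (z - k) 1 hz (by linarith) (by linarith)
            (by linarith) (by norm_num) (by linarith)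
            (by
              have e : (z - k - 1) * (c + (z - c)) = (z - k - 1) * z := by ring
              rw [e]; exact mul_le_mul_of_nonneg_right (by linarith) hz)
            (by
              have h2 : 0 ≤ (z - k - 1 - (y - m)) * (y - (z - k) - (y - m)) :=
                mul_nonneg (by linarith) (by linarith)
              have h3 : 0 ≤ (y - m - (z - c) - 1) * m := mul_nonneg (by linarith) (by linarith)
              nlinarith)
          refine (ih (by linarith)).trans ?_
          have e : z - ((k + 1 : ℕ) : ℤ) = z - k - 1 := by push_cast; ring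
          rw [e]
          exact h
      have h := key (z - (y - m)).toNat (by rw [Int.toNat_of_nonneg (by linarith)])
      rw [Int.toNat_of_nonneg (by linarith)] at h
      have e : z - (z - (y - m)) = y - m := by ring
      rw [e] at h
      exact h
  have s4 := bk_end z m c y (z - c) (y - m) hz (by linarith) (by ring) (by ring) (by linarith)
    (by linarith)
  have e : y - m - (z - c) = c + y - z - m := by ring
  rw [e] at s4
  exact (s2.trans s3).trans s4.symm

end Pool.Agent.Y321.SE2
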