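import Pool.Agent.Y321.SEP.LinkP
import Pool.Agent.Y321.SE2.CoreLink

/-!
# The core link for positive determinant
-/

set_option autoImplicit false

namespace Pool.Agent.Y321.SE2

open Matrix Pool.Agent.TH441.SSE2

/-- Bound on the corner entry. -/
lemma z_bound (p r s t e f σ h T : ℤ) (hps : s < p) (hrt : r < t)
    (hσ : 0 ≤ σ) (he : 0 ≤ e) (hβ : 0 ≤ r * e + t * f) (hγ : 0 ≤ s * h - p * σ)
    (hα : T ≤ 5 * (p * e + s * f)) (hδ : T ≤ 5 * (t * h - r * σ)) (hT0 : 0 < T)
    (hD : 500 * ((p * t - r * s) * (e * h + f * σ)) ≤ T ^ 2) :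
    100 * ((p - s) * e + (t - r) * σ) ≤ T := by
  have key : (p * t - r * s) * (e * h + f * σ) =
      (p - s) * (e * (t * h - r * σ) + σ * (r * e + t * f)) +
      (t - r) * (e * (s * h - p * σ) + σ * (p * e + s * f)) := by ring
  have h1 : 0 ≤ (p - s) * σ * (r * e + t * f) :=
    mul_nonneg (mul_nonneg (by linarith) hσ) hβ
  have h2 : 0 ≤ (t - r) * e * (s * h - p * σ) :=
    mul_nonneg (mul_nonneg (by linarith) he) hγ
  have h3 : (p - s) * e * T ≤ (p - s) * e * (5 * (t * h - r * σ)) :=
    mul_le_mul_of_nonneg_left hδ (mul_nonneg (by linarith) he)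
  have h4 : (t - r) * σ * T ≤ (t - r) * σ * (5 * (p * e + s * f)) :=
    mul_le_mul_of_nonneg_left hα (mul_nonneg (by linarith) hσ)
  have h5 : T * (100 * ((p - s) * e + (t - r) * σ)) ≤ T * T := by nlinarith
  exact le_of_mul_le hT0 h5

theorem core_HP (p r s t e f σ h T : ℤ) (hs : 1 ≤ s) (hps : s < p) (hr : 0 ≤ r) (hrt : r < t)
    (hσ : 1 ≤ σ) (he : 1 ≤ e) (hf : 0 ≤ f) (hc : 1 ≤ s * e - t * σ)
    (hγ : 1 ≤ s * h - p * σ)
    (hT : T = (p * e + s * f) + (t * h - r * σ))
    (hα : T ≤ 5 * (p * e + s * f)) (hδ : T ≤ 5 * (t * h - r * σ)) (hT0 : 0 < T)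
    (hD : 500 * ((p * t - r * s) * (e * h + f * σ)) ≤ T ^ 2)
    (hcase : (2 * s - 1) * σ ≤ s * h - p * σ) :
    ∃ A' : Matrix (Fin 2) (Fin 2) ℤ, Sim A' (!![p, r; s, t] * !![e, f; -σ, h]) ∧
      Q (!![e, f; -σ, h] * !![p, r; s, t]) A' := by
  have ht : 1 ≤ t := by linarith
  have hp : 1 ≤ p := by linarith
  have hβ : 0 ≤ r * e + t * f :=
    add_nonneg (mul_nonneg hr (by linarith)) (mul_nonneg (by linarith) hf)
  have hz100 := z_bound p r s t e f σ h T hps hrt (by linarith) (by linarith) hβ (by linarith)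
    hα hδ hT0 hD
  obtain ⟨hm1, hm2⟩ := ceil_spec p (2 * s) (by linarith)
  obtain ⟨m, hm⟩ : ∃ m, m = (p + 2 * s - 1) / (2 * s) := ⟨_, rfl⟩
  rw [← hm] at hm1 hm2
  have hm0 : 1 ≤ m := by
    by_contra hneg
    push Not at hneg
    nlinarith
  -- `p - m s ≥ 1`
  have hpm : 1 ≤ p - m * s := by
    rcases le_or_gt (2 * s) p with h1 | h1
    · linarith
    · have : m ≤ 1 := by
        by_contra hneg
        push Not at hneg
        nlinarith
      have h2 : m = 1 := le_antisymm this hm0
      rw [h2]; linarith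
  have hmt : t ≤ m * t := le_mul_of_one_le_left (by linarith) hm0
  have h2mσ : 2 * m * σ ≤ h := by
    have h1 : (2 * s * m) * σ ≤ (p + 2 * s - 1) * σ :=
      mul_le_mul_of_nonneg_right hm2 (by linarith)
    have h2 : s * (2 * m * σ) ≤ s * h := by nlinarith
    exact le_of_mul_le (by linarith) h2
  have hms0 : 0 ≤ m * σ := mul_nonneg (by linarith) (by linarith)
  have hme0 : 0 ≤ m * e := mul_nonneg (by linarith) (by linarith)
  obtain ⟨z, hz⟩ : ∃ z, z = (p - m * s) * e + (m * t - r) * σ := ⟨_, rfl⟩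
  obtain ⟨b, hb⟩ : ∃ b, b = (p - m * s) * (f + m * e) - (m * t - r) * (h - m * σ) := ⟨_, rfl⟩
  obtain ⟨c, hcd⟩ : ∃ c, c = s * e - t * σ := ⟨_, rfl⟩
  obtain ⟨y, hy⟩ : ∃ y, y = s * (f + m * e) + t * (h - m * σ) := ⟨_, rfl⟩
  have hyz : y + z = T := by rw [hy, hz, hT]; ring
  have hz0 : 1 ≤ z := by
    have h1 : 0 ≤ (m * t - r) * σ := mul_nonneg (by linarith) (by linarith)
    have h2 : 1 * 1 ≤ (p - m * s) * e := mul_le_mul hpm he (by norm_num) (by linarith)
    linarith
  -- `50 (z + 1) ≤ T`
  have hz50 : 50 * (z + 1) ≤ T := by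
    rcases eq_or_lt_of_le hm0 with h2 | h2
    · rw [← h2] at hz
      have : z = (p - s) * e + (t - r) * σ := by rw [hz]; ring
      rw [← this] at hz100
      linarith
    · have h2s : 2 * s ≤ p := by nlinarith
      have key : (p * t - r * s) * (e * h + f * σ) =
          (p - s) * (e * (t * h - r * σ) + σ * (r * e + t * f)) +
          (t - r) * (e * (s * h - p * σ) + σ * (p * e + s * f)) := by ring
      have k1 : 0 ≤ (p - s) * (σ * (r * e + t * f)) :=
        mul_nonneg (by linarith) (mul_nonneg (by linarith) hβ)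
      have k2 : 0 ≤ (t - r) * (e * (s * h - p * σ) + σ * (p * e + s * f)) :=
        mul_nonneg (by linarith) (add_nonneg (mul_nonneg (by linarith) (by linarith))
          (mul_nonneg (by linarith) (by linarith)))
      have k3 : (p - s) * e * T ≤ (p - s) * e * (5 * (t * h - r * σ)) :=
        mul_le_mul_of_nonneg_left hδ (mul_nonneg (by linarith) (by linarith))
      have k4 : p * (e * T) ≤ (2 * (p - s)) * (e * T) :=
        mul_le_mul_of_nonneg_right (by linarith) (mul_nonneg (by linarith) hT0.le)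
      have k5 : T * (50 * (p * e)) ≤ T * T := by
        have f1 : (p - s) * (e * (t * h - r * σ)) ≤ (p * t - r * s) * (e * h + f * σ) := by
          rw [key]
          have : (p - s) * (e * (t * h - r * σ) + σ * (r * e + t * f)) =
            (p - s) * (e * (t * h - r * σ)) + (p - s) * (σ * (r * e + t * f)) := by ring
          rw [this]
          linarith
        have f2 : T * (50 * (p * e)) = 50 * (p * (e * T)) := by ring
        have f3 : (2 * (p - s)) * (e * T) = 2 * ((p - s) * e * T) := by ring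
        have f4 : (p - s) * e * (5 * (t * h - r * σ)) =
          5 * ((p - s) * (e * (t * h - r * σ))) := by ring
        have f5 : T ^ 2 = T * T := by ring
        rw [f2, ← f5]
        linarith
      have k6 : 50 * (p * e) ≤ T := le_of_mul_le hT0 k5
      have k7 : z + m ≤ p * e := by
        have h5 : m * (t * σ) ≤ m * (s * e - 1) :=
          mul_le_mul_of_nonneg_left (by linarith) (by linarith)
        have h6 : 0 ≤ r * σ := mul_nonneg hr (by linarith)
        have h7 : (p - m * s) * e + (m * t - r) * σ =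
            p * e - m * (s * e) + m * (t * σ) - r * σ := by ring
        have h8 : m * (s * e - 1) = m * (s * e) - m := by ring
        rw [hz, h7]
        linarith
      linarith
  have hX : (p - m * s) * (f + m * e) ≤ m * (p * e + s * f) := by
    have h1 : (p - m * s) * f ≤ (m * s) * f := mul_le_mul_of_nonneg_right (by linarith) hf
    have h2 : 0 ≤ (m * s) * (m * e) := mul_nonneg (mul_nonneg (by linarith) (by linarith)) hme0
    have e1 : (p - m * s) * (f + m * e) = (p - m * s) * f + m * (p * e) - (m * s) * (m * e) := by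
      ring
    have e2 : m * (p * e + s * f) = (m * s) * f + m * (p * e) := by ring
    rw [e1, e2]
    linarith
  have hX0 : 0 ≤ (p - m * s) * (f + m * e) := mul_nonneg (by linarith) (by linarith)
  have hY : (m * t - r) * (h - m * σ) ≤ m * (t * h - r * σ) := by
    have h1 : 0 ≤ (m * σ) * (m * t - r) := mul_nonneg hms0 (by linarith)
    have h2 : 0 ≤ r * (h - m * σ) := mul_nonneg hr (by linarith)
    have e1 : m * (t * h - r * σ) =
      (m * t - r) * (h - m * σ) + (m * σ) * (m * t - r) + r * (h - m * σ) := by ring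
    rw [e1]
    linarith
  have hY0 : 0 ≤ (m * t - r) * (h - m * σ) := mul_nonneg (by linarith) (by linarith)
  have hreg : z ≤ m * c ∨ |b| + 1 ≤ m * (y - z - c - 7 * z) := by
    rcases le_or_gt z (m * c) with h1 | h1
    · exact Or.inl h1
    right
    have hcz : c ≤ z := by
      have : 1 * c ≤ m * c := mul_le_mul_of_nonneg_right hm0 (by linarith)
      linarith
    have g1 : m * ((p * e + s * f) + 1) ≤ m * (y - z - c - 7 * z) :=
      mul_le_mul_of_nonneg_left (by linarith) (by linarith)
    have g2 : m * ((t * h - r * σ) + 1) ≤ m * (y - z - c - 7 * z) :=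
      mul_le_mul_of_nonneg_left (by linarith) (by linarith)
    rcases abs_cases b with ⟨h5, _⟩ | ⟨h5, _⟩ <;> rw [h5, hb] <;> linarith
  obtain ⟨A', h1, h2⟩ := link_H_neg !![p - m * s, r - m * t; s, t] !![e, f + m * e; -σ, h - m * σ]
    m z b c y hm0 (by rw [hcd]; exact hc)
    (by
      refine ⟨?_, ?_, ?_⟩ <;> simp <;> linarith)
    (by
      refine ⟨?_, ?_, ?_⟩ <;> simp <;> linarith)
    (by
      simp only [Matrix.of_apply, Matrix.cons_val', Matrix.cons_val_zero, Matrix.cons_val_one,
        Matrix.cons_val_fin_one]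
      rw [abs_of_nonneg (by linarith : (0 : ℤ) ≤ e)]; linarith)
    (by
      simp only [Matrix.of_apply, Matrix.cons_val', Matrix.cons_val_zero, Matrix.cons_val_one,
        Matrix.cons_val_fin_one, abs_neg]
      rw [abs_of_nonneg (by linarith : (0 : ℤ) ≤ σ)]; linarith)
    (by
      rw [hz, hb, hcd, hy]
      ext i j; fin_cases i <;> fin_cases j <;>
        simp [Matrix.mul_apply, Fin.sum_univ_two] <;> ring)
    (by linarith) hreg
  refine ⟨A', h1.trans ⟨!![1, m; 0, 1], by simp [Matrix.det_fin_two], ?_⟩, ?_⟩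
  · rw [hz, hb, hcd, hy]
    ext i j; fin_cases i <;> fin_cases j <;>
      simp [Matrix.mul_apply, Fin.sum_univ_two] <;> ring
  · have e : !![e, f + m * e; -σ, h - m * σ] * !![p - m * s, r - m * t; s, t] =
        (!![e, f; -σ, h] * !![p, r; s, t] : Matrix (Fin 2) (Fin 2) ℤ) := by
      ext i j; fin_cases i <;> fin_cases j <;>
        simp [Matrix.mul_apply, Fin.sum_univ_two] <;> ring
    rw [e] at h2
    exact h2

theorem core_NP (p r s t e f σ h T : ℤ) (hs : 1 ≤ s) (hps : s < p) (hr : 0 ≤ r) (hrt : r < t)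
    (hσ : 1 ≤ σ) (he : 1 ≤ e) (hh : 1 ≤ h) (hc : 1 ≤ s * e - t * σ)
    (hβ : 1 ≤ r * e + t * f) (hγ : 1 ≤ s * h - p * σ)
    (hT : T = (p * e + s * f) + (t * h - r * σ))
    (hα : T ≤ 5 * (p * e + s * f)) (hδ : T ≤ 5 * (t * h - r * σ)) (hT0 : 0 < T)
    (hE : 0 < e * h + f * σ)
    (hD : 500 * ((p * t - r * s) * (e * h + f * σ)) ≤ T ^ 2)
    (hw : (p - s) * (e + f) - (t - r) * (h - σ) ≠ 0)
    (hcase : (0 ≤ f ∧ s * h - p * σ < (2 * s - 1) * σ) ∨ f < 0) :
    ∃ A' : Matrix (Fin 2) (Fin 2) ℤ, Sim A' (!![p, r; s, t] * !![e, f; -σ, h]) ∧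
      Q (!![e, f; -σ, h] * !![p, r; s, t]) A' := by
  have hq0 : 0 ≤ p * t - r * s := by
    have h1 : 0 ≤ (p - s) * t := mul_nonneg (by linarith) (by linarith)
    have h2 : 0 ≤ (t - r) * s := mul_nonneg (by linarith) (by linarith)
    have e : p * t - r * s = (p - s) * t + (t - r) * s := by ring
    linarith
  have hαδ : 79 * ((p * t - r * s) * (h * e + σ * f)) ≤
      (h * s - p * σ) * (e * r + f * t) := by
    have h1 := prod_bound hT hα hδ hD
    have h0 : 0 ≤ (p * t - r * s) * (e * h + f * σ) := mul_nonneg hq0 hE.le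
    have e1 : (h * s - p * σ) * (e * r + f * t) =
        (p * e + s * f) * (t * h - r * σ) - (p * t - r * s) * (e * h + f * σ) := by ring
    have e2 : (p * t - r * s) * (h * e + σ * f) = (p * t - r * s) * (e * h + f * σ) := by ring
    rw [e1, e2]
    linarith
  obtain ⟨l, hl2, n3, n4, n1, n2, hhσ, hef⟩ := exists_level' p r s t σ h e f hs hps hr hrt hσ hh
    he (by linarith) (by linarith) (by linarith) (by linarith) (by linarith) hαδ
    (by
      rcases hcase with ⟨h1, h2⟩ | h1
      · exact Or.inl ⟨h1, by linarith⟩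
      · exact Or.inr h1)
  have hzb := z_bound p r s t e f σ h T hps hrt (by linarith) (by linarith) (by linarith)
    (by linarith) hα hδ hT0 hD
  clear hD hE hcase hαδ
  obtain ⟨z, hz⟩ : ∃ z, z = (p - s) * e + (t - r) * σ := ⟨_, rfl⟩
  obtain ⟨b, hb⟩ : ∃ b, b = (p - s) * (e + f) - (t - r) * (h - σ) := ⟨_, rfl⟩
  obtain ⟨y, hy⟩ : ∃ y, y = s * (e + f) + t * (h - σ) := ⟨_, rfl⟩
  have hyz : y + z = T := by rw [hy, hz, hT]; ring
  rw [← hz] at hzb
  rw [← hb] at hw
  have hae : 0 ≤ (p - s) * e := mul_nonneg (by linarith) (by linarith)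
  have hdσ : 0 ≤ (t - r) * σ := mul_nonneg (by linarith) (by linarith)
  have hz0 : 0 ≤ z := by linarith
  have hreg : z ≤ l * |b| ∨ |s * e - t * σ| + 1 ≤ l * (y - z - |b| - 7 * z) := by
    rcases le_or_gt z (l * |b|) with h1 | h1
    · exact Or.inl h1
    right
    rw [abs_of_nonneg (show 0 ≤ s * e - t * σ by linarith)]
    have hb0 := abs_nonneg b
    have hbz : |b| ≤ z := by
      have : 1 * |b| ≤ l * |b| := mul_le_mul_of_nonneg_right (by linarith) hb0
      linarith
    have k1 : s * e ≤ s * (l * (e + f)) := mul_le_mul_of_nonneg_left n2 (by linarith)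
    have k2 : 0 ≤ l * ((p - s) * e) := mul_nonneg (by linarith) hae
    have k3 : 1 * 1 ≤ t * σ := mul_le_mul (by linarith) hσ (by norm_num) (by linarith)
    have k4 : s * e - t * σ + 1 ≤ l * (p * e + s * f) := by nlinarith
    have k5 : l * (p * e + s * f) ≤ l * (y - z - |b| - 7 * z) :=
      mul_le_mul_of_nonneg_left (by linarith) (by linarith)
    linarith
  have hRS : (!![p - s, r - t; s, t] * !![e, e + f; -σ, h - σ] : Matrix (Fin 2) (Fin 2) ℤ) =
      !![z, b; s * e - t * σ, y] := by
    rw [hz, hb, hy]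
    ext i j; fin_cases i <;> fin_cases j <;>
      simp [Matrix.mul_apply, Fin.sum_univ_two] <;> ring
  obtain ⟨A', h1, h2⟩ := link_N_neg !![p - s, r - t; s, t] !![e, e + f; -σ, h - σ]
    l z b (s * e - t * σ) y (by linarith) hw
    (by
      simp only [Matrix.of_apply, Matrix.cons_val', Matrix.cons_val_zero, Matrix.cons_val_one,
        Matrix.cons_val_fin_one]
      rw [abs_of_nonneg (show (0 : ℤ) ≤ p - s by linarith)]; exact n3)
    (by
      simp only [Matrix.of_apply, Matrix.cons_val', Matrix.cons_val_zero, Matrix.cons_val_one,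
        Matrix.cons_val_fin_one]
      rw [abs_of_nonpos (show r - t ≤ 0 by linarith)]; linarith)
    (by
      have h3 : 0 ≤ l * (e + f) := mul_nonneg (by linarith) hef
      refine ⟨?_, ?_, ?_⟩ <;> simp <;> linarith)
    (by
      refine ⟨?_, ?_, ?_⟩
      · simpa using hhσ
      · simpa using n1
      · simp
        have : 0 ≤ l * (h - σ) := mul_nonneg (by linarith) hhσ
        linarith)
    hRS hz0 hreg
  refine ⟨A', h1.trans ⟨!![1, 1; 0, 1], by simp [Matrix.det_fin_two], ?_⟩, ?_⟩
  · rw [← hRS]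
    ext i j; fin_cases i <;> fin_cases j <;>
      simp [Matrix.mul_apply, Fin.sum_univ_two] <;> ring
  · have e : !![e, e + f; -σ, h - σ] * !![p - s, r - t; s, t] =
        (!![e, f; -σ, h] * !![p, r; s, t] : Matrix (Fin 2) (Fin 2) ℤ) := by
      ext i j; fin_cases i <;> fin_cases j <;>
        simp [Matrix.mul_apply, Fin.sum_univ_two] <;> ring
    rw [e] at h2
    exact h2

theorem core_eP (p r s t e f σ h T : ℤ) (hs : 0 ≤ s) (hps : s < p) (hr : 0 ≤ r) (hrt : r < t)
    (hσ : 1 ≤ σ) (hc : 1 ≤ s * e - t * σ)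
    (hβ : 1 ≤ r * e + t * f) (hγ : 1 ≤ s * h - p * σ)
    (hT : T = (p * e + s * f) + (t * h - r * σ))
    (hα : T ≤ 5 * (p * e + s * f)) (hδ : T ≤ 5 * (t * h - r * σ)) (hT0 : 0 < T)
    (hE : 0 < e * h + f * σ)
    (hD : 500 * ((p * t - r * s) * (e * h + f * σ)) ≤ T ^ 2)
    (hw : (p - s) * (e + f) - (t - r) * (h - σ) ≠ 0) :
    ∃ A' : Matrix (Fin 2) (Fin 2) ℤ, Sim A' (!![p, r; s, t] * !![e, f; -σ, h]) ∧
      Q (!![e, f; -σ, h] * !![p, r; s, t]) A' := by
  have hpσ : 0 < p * σ := mul_pos (by linarith) (by linarith)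
  have htσ : 0 < t * σ := mul_pos (by linarith) (by linarith)
  have hs1 : 1 ≤ s := by
    by_contra hneg
    have h0 : s = 0 := by omega
    rw [h0, zero_mul] at hγ
    linarith
  have hh : 1 ≤ h := by
    by_contra hneg
    push Not at hneg
    have : s * h ≤ 0 := mul_nonpos_of_nonneg_of_nonpos hs (by linarith)
    linarith
  have he : 1 ≤ e := by
    by_contra hneg
    push Not at hneg
    have : s * e ≤ 0 := mul_nonpos_of_nonneg_of_nonpos hs (by linarith)
    linarith
  rcases le_or_gt 0 f with hf | hf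
  · rcases le_or_gt ((2 * s - 1) * σ) (s * h - p * σ) with hcs | hcs
    · exact core_HP p r s t e f σ h T hs1 hps hr hrt hσ he hf hc hγ hT hα hδ hT0 hD hcs
    · exact core_NP p r s t e f σ h T hs1 hps hr hrt hσ he hh hc hβ hγ hT hα hδ hT0 hE hD hw
        (Or.inl ⟨hf, hcs⟩)
  · exact core_NP p r s t e f σ h T hs1 hps hr hrt hσ he hh hc hβ hγ hT hα hδ hT0 hE hD hw
      (Or.inr hf)

/-- The core link for positive determinant. -/
theorem core_linkP (p r s t e f g h T : ℤ) (hs : 0 ≤ s) (hps : s < p) (hr : 0 ≤ r) (hrt : r < t)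
    (hc : 1 ≤ s * e + t * g) (hb : 1 ≤ p * f + r * h)
    (hβ : 1 ≤ e * r + f * t) (hγ : 1 ≤ g * p + h * s)
    (hT : T = (e * p + f * s) + (g * r + h * t))
    (hα : T ≤ 5 * (e * p + f * s)) (hδ : T ≤ 5 * (g * r + h * t)) (hT0 : 0 < T)
    (hE : 0 < e * h - f * g)
    (hD : 500 * ((p * t - r * s) * (e * h - f * g)) ≤ T ^ 2)
    (hw : (p - s) * (e + f) - (t - r) * (g + h) ≠ 0) :
    ∃ A' : Matrix (Fin 2) (Fin 2) ℤ, Sim A' (!![p, r; s, t] * !![e, f; g, h]) ∧
      Q (!![e, f; g, h] * !![p, r; s, t]) A' := by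
  rcases lt_or_ge g 0 with hg | hg
  · obtain ⟨σ, hσ⟩ : ∃ σ, σ = -g := ⟨_, rfl⟩
    have hg' : g = -σ := by linarith
    subst hg'
    exact core_eP p r s t e f σ h T hs hps hr hrt (by omega) (by linarith) (by linarith)
      (by linarith) (by rw [hT]; ring) (by linarith) (by linarith) hT0 (by linarith)
      (by
        have e1 : (p * t - r * s) * (e * h + f * σ) = (p * t - r * s) * (e * h - f * -σ) := by
          ring
        rw [e1]; exact hD)
      (by
        intro h0
        apply hw
        linarith)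
  · rcases lt_or_ge f 0 with hf | hf
    · obtain ⟨σ, hσ⟩ : ∃ σ, σ = -f := ⟨_, rfl⟩
      have hf' : f = -σ := by linarith
      subst hf'
      obtain ⟨A', h1, h2⟩ := core_eP t s r p h g σ e T hr hrt hs hps (by omega) (by linarith)
        (by linarith) (by linarith) (by rw [hT]; ring) (by linarith) (by linarith) hT0
        (by linarith)
        (by
          have e1 : (t * p - s * r) * (h * e + g * σ) = (p * t - r * s) * (e * h - -σ * g) := by
            ring
          rw [e1]; exact hD)
        (by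
          intro h0
          apply hw
          linarith)
      refine ⟨A', h1.trans ⟨!![0, 1; 1, 0], by simp [Matrix.det_fin_two], ?_⟩, ?_⟩
      · ext i j; fin_cases i <;> fin_cases j <;>
          simp [Matrix.mul_apply, Fin.sum_univ_two] <;> ring
      · have e1 : (!![h, g; -σ, e] * !![t, s; r, p] : Matrix (Fin 2) (Fin 2) ℤ) =
            !![g * r + h * t, g * p + h * s; e * r + -σ * t, e * p + -σ * s] := by
          ext i j; fin_cases i <;> fin_cases j <;>
            simp [Matrix.mul_apply, Fin.sum_univ_two] <;> ring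
        have e2 : (!![e, -σ; g, h] * !![p, r; s, t] : Matrix (Fin 2) (Fin 2) ℤ) =
            !![e * p + -σ * s, e * r + -σ * t; g * p + h * s, g * r + h * t] := by
          ext i j; fin_cases i <;> fin_cases j <;>
            simp [Matrix.mul_apply, Fin.sum_univ_two]
        rw [e1] at h2
        rw [e2]
        exact (Q.swap _ _ _ _ (by linarith) (by linarith) (by linarith) (by linarith)).trans h2
    · -- nonnegative `S`
      have hfg : 0 ≤ f * g := mul_nonneg hf hg
      have heh : 0 < e * h := by linarith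
      have hpos : 0 ≤ e ∧ 0 ≤ h := by
        rcases pos_and_pos_or_neg_and_neg_of_mul_pos heh with ⟨h1, h2⟩ | ⟨h1, h2⟩
        · exact ⟨h1.le, h2.le⟩
        · exfalso
          have k1 : p * (-e) < s * f := by linarith
          have k2 : t * (-h) < r * g := by linarith
          have k3 : s * (-e) ≤ p * (-e) := mul_le_mul_of_nonneg_right hps.le (by linarith)
          have k4 : r * (-h) ≤ t * (-h) := mul_le_mul_of_nonneg_right hrt.le (by linarith)
          have hs1 : 0 < s := by
            rcases hs.lt_or_eq with h3 | h3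
            · exact h3
            · rw [← h3, zero_mul] at k1
              have := mul_nonneg (show (0 : ℤ) ≤ p by linarith) (show (0 : ℤ) ≤ -e by linarith)
              linarith
          have hr1 : 0 < r := by
            rcases hr.lt_or_eq with h3 | h3
            · exact h3
            · rw [← h3, zero_mul] at k2
              have := mul_nonneg (show (0 : ℤ) ≤ t by linarith) (show (0 : ℤ) ≤ -h by linarith)
              linarith
          have k5 : -e < f := lt_of_mul_lt_mul_left (by linarith) hs1.le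
          have k6 : -h < g := lt_of_mul_lt_mul_left (by linarith) hr1.le
          have k7 : (-e) * (-h) ≤ f * g := mul_le_mul k5.le k6.le (by linarith) hf
          linarith
      obtain ⟨he, hh⟩ := hpos
      refine ⟨!![p, r; s, t] * !![e, f; g, h], Sim.refl _, ?_⟩
      refine Q.of_elem !![e, f; g, h] !![p, r; s, t] ?_ ?_ rfl rfl
      · intro i j; fin_cases i <;> fin_cases j <;> simp <;> linarith
      · intro i j; fin_cases i <;> fin_cases j <;> simp <;> linarith

end Pool.Agent.Y321.SE2
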