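import Pool.Agent.Y321.SEP.Baker
import Pool.Agent.Y321.SE2.Walk

/-!
# Similar matrices of positive determinant
-/

set_option autoImplicit false

namespace Pool.Agent.Y321.SE2

open Matrix Pool.Agent.TH441.SSE2

lemma pos_of_mul_add {x y : ℤ} (h1 : 0 < x * y) (h2 : 0 < x + y) : 1 ≤ x ∧ 1 ≤ y := by
  rcases pos_and_pos_or_neg_and_neg_of_mul_pos h1 with ⟨h3, h4⟩ | ⟨h3, h4⟩
  · exact ⟨h3, h4⟩
  · linarith

lemma diag_pos {T D a b c d : ℤ} (hb : 1 ≤ b) (hc : 1 ≤ c) (hT : T = a + d)
    (hD : D = a * d - b * c) (hT0 : 0 < T) (hD0 : 0 < D) : 1 ≤ a ∧ 1 ≤ d := by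
  have h1 : 0 < b * c := mul_pos (by linarith) (by linarith)
  exact pos_of_mul_add (by linarith) (by linarith)

/-- One step along the river. -/
lemma edge {T D a b c d : ℤ} (hb : 1 ≤ b) (hc : 1 ≤ c) (hT : T = a + d)
    (hD : D = a * d - b * c) (hT0 : 0 < T) (hD0 : 0 < D) (hTD : 500 * D ≤ T ^ 2)
    (hw : 1 ≤ c + d - a - b) : Q !![a, b; c, d] !![a + b, b; c + d - a - b, d - b] := by
  obtain ⟨ha, hd⟩ := diag_pos hb hc hT hD hT0 hD0
  obtain ⟨ha', hd'⟩ : 1 ≤ a + b ∧ 1 ≤ d - b := by
    refine diag_pos (T := T) (D := D) (b := b) (c := c + d - a - b) hb hw (by linarith)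
      (by rw [hD]; ring) hT0 hD0
  rcases le_or_gt a c with h1 | h1
  · refine Q.of_elem !![1, 0; 1, 1] !![a, b; c - a, d - b] ?_ ?_ ?_ ?_
    · intro i j; fin_cases i <;> fin_cases j <;> simp
    · intro i j; fin_cases i <;> fin_cases j <;> simp <;> linarith
    · ext i j; fin_cases i <;> fin_cases j <;> simp [Matrix.mul_apply, Fin.sum_univ_two]
    · ext i j; fin_cases i <;> fin_cases j <;>
        simp [Matrix.mul_apply, Fin.sum_univ_two] <;> ring
  · rcases le_or_gt (2 * a) d with h2 | h2
    · exact baker a b c d hc h1 hb h2 (by linarith)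
    · have h3 : 2 * (d - b) ≤ a + b := by
        by_contra hneg
        push Not at hneg
        have e1 : D = a * (d - b) + b * (a - c) := by rw [hD]; ring
        have e2 : 0 ≤ b * (a - c) := mul_nonneg (by linarith) (by linarith)
        have e3 : a * a ≤ 2 * (a * (d - b)) := by
          have : a * a ≤ a * (2 * (d - b)) := mul_le_mul_of_nonneg_left (by linarith) (by linarith)
          linarith
        have e4 : T ^ 2 ≤ (3 * a) ^ 2 := by
          have : T ≤ 3 * a := by linarith
          exact pow_le_pow_left₀ hT0.le this 2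
        nlinarith
      have h := baker (d - b) b (c + d - a - b) (a + b) hw (by linarith) hb h3 (by linarith)
      have e1 : (!![d - b + b, b; c + d - a - b + (a + b) - (d - b) - b, a + b - b] :
          Matrix (Fin 2) (Fin 2) ℤ) = !![d, b; c, a] := by
        ext i j; fin_cases i <;> fin_cases j <;> simp <;> ring
      rw [e1] at h
      have h4 := h.transpose
      have e2 : (!![d - b, b; c + d - a - b, a + b] : Matrix (Fin 2) (Fin 2) ℤ)ᵀ =
          !![d - b, c + d - a - b; b, a + b] := by
        ext i j; fin_cases i <;> fin_cases j <;> simp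
      have e3 : (!![d, b; c, a] : Matrix (Fin 2) (Fin 2) ℤ)ᵀ = !![d, c; b, a] := by
        ext i j; fin_cases i <;> fin_cases j <;> simp
      rw [e2, e3] at h4
      have h5 := Q.swap a b c d (by linarith) (by linarith) (by linarith) (by linarith)
      have h6 := Q.swap (a + b) b (c + d - a - b) (d - b) (by linarith) (by linarith)
        (by linarith) (by linarith)
      exact (h5.trans h4.symm).trans h6.symm

lemma edge' {T D a b c d : ℤ} (hb : 1 ≤ b) (hc : 1 ≤ c) (hT : T = a + d)
    (hD : D = a * d - b * c) (hT0 : 0 < T) (hD0 : 0 < D) (hTD : 500 * D ≤ T ^ 2)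
    (hw : 1 ≤ a + b - c - d) : Q !![a, b; c, d] !![a - c, a + b - c - d; c, c + d] := by
  obtain ⟨ha, hd⟩ := diag_pos hb hc hT hD hT0 hD0
  have h := edge (T := T) (D := D) (a := d) (b := c) (c := b) (d := a) hc hb (by linarith)
    (by rw [hD]; ring) hT0 hD0 hTD (by linarith)
  obtain ⟨ha', hd'⟩ : 1 ≤ d + c ∧ 1 ≤ a - c := by
    refine diag_pos (T := T) (D := D) (b := c) (c := b + a - d - c) hc (by linarith)
      (by linarith) (by rw [hD]; ring) hT0 hD0
  have h5 := Q.swap a b c d (by linarith) (by linarith) (by linarith) (by linarith)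
  have h6 := Q.swap (d + c) c (b + a - d - c) (a - c) (by linarith) (by linarith)
        (by linarith) (by linarith)
  have e : (!![a - c, b + a - d - c; c, d + c] : Matrix (Fin 2) (Fin 2) ℤ) =
      !![a - c, a + b - c - d; c, c + d] := by
    ext i j; fin_cases i <;> fin_cases j <;> simp <;> ring
  rw [e] at h6
  exact (h5.trans h).trans h6

/-- Nonnegative unimodular change of basis. -/
lemma river_nn (T D : ℤ) (hT0 : 0 < T) (hD0 : 0 < D) (hTD : 500 * D ≤ T ^ 2) (n : ℕ) :
    ∀ (a b c d p r s t α β γ δ : ℤ), 1 ≤ b → 1 ≤ c → T = a + d → D = a * d - b * c →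
    0 ≤ p → 0 ≤ r → 0 ≤ s →
    0 ≤ t → p * t - r * s = 1 → 1 ≤ β → 1 ≤ γ →
    !![a, b; c, d] * !![p, r; s, t] = !![p, r; s, t] * !![α, β; γ, δ] → p + r + s + t ≤ n →
    Q !![a, b; c, d] !![α, β; γ, δ] := by
  induction n with
  | zero =>
    intro a b c d p r s t α β γ δ _ _ _ _ hp hr hs ht hdet _ _ _ hn
    push_cast at hn
    have h1 : p = 0 := by linarith
    have h2 : r = 0 := by linarith
    rw [h1, h2] at hdet
    linarith
  | succ n ih =>
    intro a b c d p r s t α β γ δ hb hc hT hD hp hr hs ht hdet hβ hγ hAR hn
    push_cast at hn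
    have e00 := congrFun (congrFun hAR 0) 0
    have e01 := congrFun (congrFun hAR 0) 1
    have e10 := congrFun (congrFun hAR 1) 0
    have e11 := congrFun (congrFun hAR 1) 1
    simp [Matrix.mul_apply, Fin.sum_univ_two] at e00 e01 e10 e11
    by_cases h1 : s ≤ p ∧ t ≤ r
    · obtain ⟨h1, h2⟩ := h1
      have hst : 1 ≤ s + t := by
        by_contra hneg
        push Not at hneg
        have h3 : s = 0 := by linarith
        have h4 : t = 0 := by linarith
        rw [h3, h4] at hdet
        linarith
      have hb' : 1 ≤ a + b - c - d := by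
        by_contra hneg
        push Not at hneg
        have f2 : c * (r - t) * (r - t) + (c + d - (a - c)) * ((r - t) * t) -
            (a + b - c - d) * (t * t) = -(p * t - r * s) * β := by
          linear_combination r * e11 - t * e01
        have g1 : 0 ≤ c * (r - t) * (r - t) :=
          mul_nonneg (mul_nonneg (by linarith) (by linarith)) (by linarith)
        have g2 : 0 ≤ (c + d - (a - c)) * ((r - t) * t) :=
          mul_nonneg (by linarith) (mul_nonneg (by linarith) ht)
        have g3 : 0 ≤ (-(a + b - c - d)) * (t * t) :=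
          mul_nonneg (by linarith) (mul_self_nonneg t)
        rw [hdet] at f2
        linarith
      have hQ := ih (a - c) (a + b - c - d) c (c + d) (p - s) (r - t) s t α β γ δ hb' hc
          (by linarith) (by rw [hD]; ring) (by linarith)
          (by linarith) hs ht (by
            have e : (p - s) * t - (r - t) * s = p * t - r * s := by ring
            rw [e]; exact hdet) hβ hγ (by
            ext i j; fin_cases i <;> fin_cases j <;>
              simp [Matrix.mul_apply, Fin.sum_univ_two] <;> linarith) (by linarith)
      exact (edge' hb hc hT hD hT0 hD0 hTD hb').trans hQ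
    · by_cases h2 : p ≤ s ∧ r ≤ t
      · obtain ⟨h2, h3⟩ := h2
        have hpr : 1 ≤ p + r := by
          by_contra hneg
          push Not at hneg
          have h4 : p = 0 := by linarith
          have h5 : r = 0 := by linarith
          rw [h4, h5] at hdet
          linarith
        have hc' : 1 ≤ c + d - a - b := by
          by_contra hneg
          push Not at hneg
          have f2 : (c + d - a - b) * (p * p) + (d - b - (a + b)) * (p * (s - p)) -
              b * (s - p) * (s - p) = (p * t - r * s) * γ := by
            linear_combination p * e10 - s * e00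
          have g1 : 0 ≤ b * (s - p) * (s - p) :=
            mul_nonneg (mul_nonneg (by linarith) (by linarith)) (by linarith)
          have g2 : 0 ≤ (-(d - b - (a + b))) * (p * (s - p)) :=
            mul_nonneg (by linarith) (mul_nonneg hp (by linarith))
          have g3 : 0 ≤ (-(c + d - a - b)) * (p * p) :=
            mul_nonneg (by linarith) (mul_self_nonneg p)
          rw [hdet] at f2
          linarith
        have hQ := ih (a + b) b (c + d - a - b) (d - b) p r (s - p) (t - r) α β γ δ hb hc'
            (by linarith) (by rw [hD]; ring) hp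
            hr (by linarith) (by linarith) (by
              have e : p * (t - r) - r * (s - p) = p * t - r * s := by ring
              rw [e]; exact hdet) hβ hγ (by
              ext i j; fin_cases i <;> fin_cases j <;>
                simp [Matrix.mul_apply, Fin.sum_univ_two] <;> linarith) (by linarith)
        exact (edge hb hc hT hD hT0 hD0 hTD hc').trans hQ
      · -- dominant
        have hcase : s < p ∧ r < t := by
          rcases lt_or_ge s p with h3 | h3
          · exact ⟨h3, by
              by_contra h4
              push Not at h4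
              exact h1 ⟨h3.le, h4⟩⟩
          · exfalso
            have h4 : t < r := by
              by_contra h4
              push Not at h4
              exact h2 ⟨h3, h4⟩
            have h5 : p * t ≤ s * r := mul_le_mul h3 h4.le ht hs
            linarith
        obtain ⟨h3, h4⟩ := hcase
        have h5 : (p - s) * t + (t - r) * s = 1 := by linarith
        have h6 : 1 * t ≤ (p - s) * t := mul_le_mul_of_nonneg_right (by linarith) ht
        have h7 : 1 * s ≤ (t - r) * s := mul_le_mul_of_nonneg_right (by linarith) hs
        have ht1 : t = 1 := by linarith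
        have hs0 : s = 0 := by linarith
        have hr0 : r = 0 := by linarith
        rw [hs0, ht1] at h5
        have hp1 : p = 1 := by linarith
        simp only [hs0, hr0, hp1, ht1, mul_one, mul_zero, zero_mul, one_mul, add_zero,
          zero_add] at e00 e01 e10 e11
        have e1 : α = a := by linarith
        have e2 : β = b := by linarith
        have e3 : γ = c := by linarith
        have e4 : δ = d := by linarith
        rw [e1, e2, e3, e4]
        exact Q.refl _

/-- Two bases on the river are nested. -/
lemma nested {a b c d p r s t α β γ δ : ℤ} (hb : 1 ≤ b) (hc : 1 ≤ c) (hβ : 1 ≤ β)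
    (hγ : 1 ≤ γ) (hdet : p * t - r * s = 1)
    (hAR : !![a, b; c, d] * !![p, r; s, t] = !![p, r; s, t] * !![α, β; γ, δ]) :
    0 < p * t ∧ 0 ≤ r * s := by
  have e00 := congrFun (congrFun hAR 0) 0
  have e01 := congrFun (congrFun hAR 0) 1
  have e10 := congrFun (congrFun hAR 1) 0
  have e11 := congrFun (congrFun hAR 1) 1
  simp [Matrix.mul_apply, Fin.sum_univ_two] at e00 e01 e10 e11
  -- `q(w₁) = γ`, `q(w₂) = -β`
  have q1 : c * p ^ 2 + (d - a) * p * s - b * s ^ 2 = γ := by
    have : c * p ^ 2 + (d - a) * p * s - b * s ^ 2 = (p * t - r * s) * γ := by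
      linear_combination p * e10 - s * e00
    rw [this, hdet, one_mul]
  have q2 : c * r ^ 2 + (d - a) * r * t - b * t ^ 2 = -β := by
    have : c * r ^ 2 + (d - a) * r * t - b * t ^ 2 = -((p * t - r * s) * β) := by
      linear_combination r * e11 - t * e01
    rw [this, hdet, one_mul]
  have hp : p ≠ 0 := by
    intro h
    rw [h] at q1
    have : 0 ≤ b * s ^ 2 := mul_nonneg (by linarith) (sq_nonneg s)
    nlinarith
  have ht : t ≠ 0 := by
    intro h
    rw [h] at q2
    have : 0 ≤ c * r ^ 2 := mul_nonneg (by linarith) (sq_nonneg r)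
    nlinarith
  have hpt : p * t ≠ 0 := mul_ne_zero hp ht
  have hpos : 0 < p * t := by
    by_contra hneg
    have h1 : p * t < 0 := lt_of_le_of_ne (not_lt.mp hneg) hpt
    have h2 : r * s < 0 := by linarith
    -- the identity
    have key : c * (p * r) + b * (t * s) = γ * (t * r) + β * (p * s) := by
      have e1 : c * (p * r) + b * (t * s) =
          (p * t - r * s) * (c * (p * r) + b * (t * s)) := by rw [hdet, one_mul]
      have e2 : γ * (t * r) + β * (p * s) =
          (c * p ^ 2 + (d - a) * p * s - b * s ^ 2) * (t * r) -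
          (c * r ^ 2 + (d - a) * r * t - b * t ^ 2) * (p * s) := by rw [q1, q2]; ring
      rw [e1, e2]; ring
    have h3 : 0 < (p * r) * (t * s) := by
      have e : (p * r) * (t * s) = (p * t) * (r * s) := by ring
      rw [e]; exact mul_pos_of_neg_of_neg h1 h2
    have h4 : 0 < (t * r) * (p * s) := by
      have e : (t * r) * (p * s) = (p * t) * (r * s) := by ring
      rw [e]; exact mul_pos_of_neg_of_neg h1 h2
    have hr : r ≠ 0 := by
      intro h; rw [h, zero_mul] at h2; exact lt_irrefl _ h2
    have h5 : (p * r) * (t * r) < 0 := by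
      have e : (p * r) * (t * r) = (p * t) * r ^ 2 := by ring
      rw [e]; exact mul_neg_of_neg_of_pos h1 (by positivity)
    rcases pos_and_pos_or_neg_and_neg_of_mul_pos h3 with ⟨f1, f2⟩ | ⟨f1, f2⟩
    · have g1 : t * r < 0 := by
        by_contra h6
        push Not at h6
        have := mul_nonneg f1.le h6
        linarith
      have g2 : p * s < 0 := by
        by_contra h6
        push Not at h6
        have := mul_nonpos_of_nonpos_of_nonneg g1.le h6
        linarith
      have k1 : 0 < c * (p * r) := mul_pos (by linarith) f1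
      have k2 : 0 < b * (t * s) := mul_pos (by linarith) f2
      have k3 : γ * (t * r) < 0 := mul_neg_of_pos_of_neg (by linarith) g1
      have k4 : β * (p * s) < 0 := mul_neg_of_pos_of_neg (by linarith) g2
      linarith
    · have g1 : 0 < t * r := by
        by_contra h6
        push Not at h6
        have := mul_nonneg_of_nonpos_of_nonpos f1.le h6
        linarith
      have g2 : 0 < p * s := by
        by_contra h6
        push Not at h6
        have := mul_nonpos_of_nonneg_of_nonpos g1.le h6
        linarith
      have k1 : c * (p * r) < 0 := mul_neg_of_pos_of_neg (by linarith) f1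
      have k2 : b * (t * s) < 0 := mul_neg_of_pos_of_neg (by linarith) f2
      have k3 : 0 < γ * (t * r) := mul_pos (by linarith) g1
      have k4 : 0 < β * (p * s) := mul_pos (by linarith) g2
      linarith
  exact ⟨hpos, by linarith⟩

/-- Matrices on the river which are similar by a matrix of determinant one. -/
lemma river_one (T D : ℤ) (hT0 : 0 < T) (hD0 : 0 < D) (hTD : 500 * D ≤ T ^ 2)
    (a b c d p r s t α β γ δ : ℤ) (hb : 1 ≤ b) (hc : 1 ≤ c) (hT : T = a + d)
    (hD : D = a * d - b * c) (hT' : T = α + δ) (hD' : D = α * δ - β * γ)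
    (hdet : p * t - r * s = 1) (hβ : 1 ≤ β) (hγ : 1 ≤ γ)
    (hAR : !![a, b; c, d] * !![p, r; s, t] = !![p, r; s, t] * !![α, β; γ, δ]) :
    Q !![a, b; c, d] !![α, β; γ, δ] := by
  have main : ∀ p r s t : ℤ, p * t - r * s = 1 → 0 < p →
      !![a, b; c, d] * !![p, r; s, t] = !![p, r; s, t] * !![α, β; γ, δ] →
      Q !![a, b; c, d] !![α, β; γ, δ] := by
    intro p r s t hdet hp hAR
    obtain ⟨h1, h2⟩ := nested hb hc hβ hγ hdet hAR
    have ht : 0 < t := (mul_pos_iff_of_pos_left hp).mp h1
    rcases le_or_gt 0 r with h3 | h3
    · rcases h3.eq_or_lt with h4 | h4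
      · -- `r = 0`
        rcases le_or_gt 0 s with h5 | h5
        · exact river_nn T D hT0 hD0 hTD (p + r + s + t).toNat a b c d p r s t α β γ δ hb hc hT hD
            hp.le h3 h5 ht.le hdet hβ hγ hAR (Int.self_le_toNat _)
        · refine (river_nn T D hT0 hD0 hTD (t + -r + -s + p).toNat α β γ δ t (-r) (-s) p a b c d
            hβ hγ hT' hD'
            ht.le (by linarith) (by linarith) hp.le (by linarith) hb hc ?_
            (Int.self_le_toNat _)).symm
          have e1 : (!![t, -r; -s, p] * !![p, r; s, t] : Matrix (Fin 2) (Fin 2) ℤ) = 1 := by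
            ext i j; fin_cases i <;> fin_cases j <;>
              simp [Matrix.mul_apply, Fin.sum_univ_two] <;> linarith
          have e2 : (!![p, r; s, t] * !![t, -r; -s, p] : Matrix (Fin 2) (Fin 2) ℤ) = 1 := by
            ext i j; fin_cases i <;> fin_cases j <;>
              simp [Matrix.mul_apply, Fin.sum_univ_two] <;> linarith
          calc !![α, β; γ, δ] * !![t, -r; -s, p]
              = (!![t, -r; -s, p] * !![p, r; s, t]) * !![α, β; γ, δ] * !![t, -r; -s, p] := by
                rw [e1, Matrix.one_mul]
            _ = !![t, -r; -s, p] * (!![p, r; s, t] * !![α, β; γ, δ]) * !![t, -r; -s, p] := by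
                simp only [Matrix.mul_assoc]
            _ = !![t, -r; -s, p] * !![a, b; c, d] * (!![p, r; s, t] * !![t, -r; -s, p]) := by
                rw [← hAR]; simp only [Matrix.mul_assoc]
            _ = !![t, -r; -s, p] * !![a, b; c, d] := by rw [e2, Matrix.mul_one]
      · have h5 : 0 ≤ s := by
          by_contra h6
          push Not at h6
          have := mul_neg_of_pos_of_neg h4 h6
          linarith
        exact river_nn T D hT0 hD0 hTD (p + r + s + t).toNat a b c d p r s t α β γ δ hb hc hT hD
            hp.le h3 h5 ht.le hdet hβ hγ hAR (Int.self_le_toNat _)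
    · have h5 : s ≤ 0 := by
        by_contra h6
        push Not at h6
        have := mul_neg_of_neg_of_pos h3 h6
        linarith
      refine (river_nn T D hT0 hD0 hTD (t + -r + -s + p).toNat α β γ δ t (-r) (-s) p a b c d
            hβ hγ hT' hD'
            ht.le (by linarith) (by linarith) hp.le (by linarith) hb hc ?_
            (Int.self_le_toNat _)).symm
      have e1 : (!![t, -r; -s, p] * !![p, r; s, t] : Matrix (Fin 2) (Fin 2) ℤ) = 1 := by
        ext i j; fin_cases i <;> fin_cases j <;>
          simp [Matrix.mul_apply, Fin.sum_univ_two] <;> linarith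
      have e2 : (!![p, r; s, t] * !![t, -r; -s, p] : Matrix (Fin 2) (Fin 2) ℤ) = 1 := by
        ext i j; fin_cases i <;> fin_cases j <;>
          simp [Matrix.mul_apply, Fin.sum_univ_two] <;> linarith
      calc !![α, β; γ, δ] * !![t, -r; -s, p]
          = (!![t, -r; -s, p] * !![p, r; s, t]) * !![α, β; γ, δ] * !![t, -r; -s, p] := by
            rw [e1, Matrix.one_mul]
        _ = !![t, -r; -s, p] * (!![p, r; s, t] * !![α, β; γ, δ]) * !![t, -r; -s, p] := by
            simp only [Matrix.mul_assoc]
        _ = !![t, -r; -s, p] * !![a, b; c, d] * (!![p, r; s, t] * !![t, -r; -s, p]) := by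
            rw [← hAR]; simp only [Matrix.mul_assoc]
        _ = !![t, -r; -s, p] * !![a, b; c, d] := by rw [e2, Matrix.mul_one]
  have hp : p ≠ 0 := by
    intro h
    have := (nested hb hc hβ hγ hdet hAR).1
    rw [h, zero_mul] at this
    exact lt_irrefl _ this
  rcases lt_or_gt_of_ne hp with h1 | h1
  · refine main (-p) (-r) (-s) (-t) (by linarith) (by linarith) ?_
    have e : (!![-p, -r; -s, -t] : Matrix (Fin 2) (Fin 2) ℤ) = -!![p, r; s, t] := by
      ext i j; fin_cases i <;> fin_cases j <;> simp
    rw [e, Matrix.mul_neg, Matrix.neg_mul, hAR]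
  · exact main p r s t hdet h1 hAR

end Pool.Agent.Y321.SE2
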