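import Pool.Agent.Y321.SEP.MainP
import Pool.Agent.Y321.SE2.Final

/-!
# Shift equivalence implies strong shift equivalence in the region, both signs
-/

set_option autoImplicit false

namespace Pool.Agent.Y321.SE2

open Matrix Pool.Agent.TH441.SSE2

theorem se_Q_gen (T D : ℤ) (hD0 : D ≠ 0)
    (hlink : ∀ A R S : Matrix (Fin 2) (Fin 2) ℤ, NN A → A.trace = T → A.det = -D → A = R * S →
      ∃ B' : Matrix (Fin 2) (Fin 2) ℤ, NN B' ∧ Sim B' (S * R) ∧ Q A B')
    (hsim : ∀ A A'' : Matrix (Fin 2) (Fin 2) ℤ, NN A → NN A'' → Sim A'' A → A.trace = T →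
      A.det = -D → Q A A'')
    (l : ℕ) (n : ℕ) :
    ∀ (A B R S : Matrix (Fin 2) (Fin 2) ℤ), NN A → NN B → A.trace = T → A.det = -D →
      A * R = R * B → R * S = A ^ l → R.det.natAbs ≤ n → Q A B := by
  induction n with
  | zero =>
    intro A B R S _ _ _ hD _ hRS hn
    exfalso
    have h1 : R.det = 0 := by
      have : R.det.natAbs = 0 := by omega
      exact Int.natAbs_eq_zero.mp this
    have h2 := congrArg Matrix.det hRS
    rw [Matrix.det_mul, h1, zero_mul, Matrix.det_pow, hD] at h2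
    have : (-D) ^ l ≠ 0 := pow_ne_zero _ (neg_ne_zero.mpr hD0)
    exact this h2.symm
  | succ n ih =>
    intro A B R S hA hB hT hD hAR hRS hn
    have hRdet : R.det ≠ 0 := by
      intro h1
      have h2 := congrArg Matrix.det hRS
      rw [Matrix.det_mul, h1, zero_mul, Matrix.det_pow, hD] at h2
      have : (-D) ^ l ≠ 0 := pow_ne_zero _ (neg_ne_zero.mpr hD0)
      exact this h2.symm
    obtain ⟨R₁, R₂, S₁, X, Y, h1, h2, h3⟩ := left_gcd R A hRdet
    have hdet : R.det = R₁.det * R₂.det := by rw [h1, Matrix.det_mul]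
    have hR₁ : R₁.det ≠ 0 := by
      intro h; rw [h, zero_mul] at hdet; exact hRdet hdet
    have hR₂ : R₂.det ≠ 0 := by
      intro h; rw [h, mul_zero] at hdet; exact hRdet hdet
    by_cases hu : IsUnit R₁.det
    · have h4 : (1 : Matrix (Fin 2) (Fin 2) ℤ) = R * (X * R₁⁻¹) + A * (Y * R₁⁻¹) := by
        rw [← Matrix.mul_assoc, ← Matrix.mul_assoc, ← Matrix.add_mul, ← h3,
          (inv_mul_of_det_one hu).2]
      have hR := unimod hAR l hRS h4
      exact hsim A B hA hB ⟨R, hR, hAR.symm⟩ hT hD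
    · obtain ⟨B', hB', ⟨V, hV, hVB⟩, hQ⟩ := hlink A R₁ S₁ hA hT hD h2
      have hT' : (S₁ * R₁).trace = T := by rw [Matrix.trace_mul_comm, ← h2]; exact hT
      have hD' : (S₁ * R₁).det = -D := by
        rw [Matrix.det_mul, mul_comm, ← Matrix.det_mul, ← h2, hD]
      obtain ⟨i1, i2⟩ := inv_entries hV hVB.symm hT' hD'
      have hVV := inv_mul_of_det_one hV
      have hB'e : B' = V⁻¹ * (S₁ * R₁) * V := (conj_eq hV hVB.symm).symm
      have c1 : S₁ * R = R₂ * B := by
        apply cancel_left hR₁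
        rw [← Matrix.mul_assoc, ← h2, hAR, ← Matrix.mul_assoc, ← h1]
      have c2 : R₂ * S * R₁ = (S₁ * R₁) ^ l := by
        apply cancel_left hR₁
        rw [← pow_comm_right, ← h2, ← hRS, h1]
        simp only [Matrix.mul_assoc]
      have hlt : (V⁻¹ * R₂).det.natAbs ≤ n := by
        have e1 : (V⁻¹ * R₂).det.natAbs = R₂.det.natAbs := by
          rw [Matrix.det_mul, Int.natAbs_mul]
          have : (V⁻¹).det.natAbs = 1 :=
            Int.isUnit_iff_natAbs_eq.mp (Matrix.isUnit_nonsing_inv_det V hV)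
          rw [this, one_mul]
        rw [e1]
        have e2 : R.det.natAbs = R₁.det.natAbs * R₂.det.natAbs := by
          rw [hdet, Int.natAbs_mul]
        have e3 : 2 ≤ R₁.det.natAbs := by
          have k1 : R₁.det.natAbs ≠ 0 := Int.natAbs_ne_zero.mpr hR₁
          have k2 : R₁.det.natAbs ≠ 1 := fun h => hu (Int.isUnit_iff_natAbs_eq.mpr h)
          omega
        have e4 : 1 ≤ R₂.det.natAbs := Nat.one_le_iff_ne_zero.mpr (Int.natAbs_ne_zero.mpr hR₂)
        have e5 : 2 * R₂.det.natAbs ≤ R.det.natAbs := by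
          rw [e2]; exact Nat.mul_le_mul_right _ e3
        omega
      have hfin := ih B' B (V⁻¹ * R₂) (S * R₁ * V) hB' hB
        (by rw [Matrix.trace_fin_two, ← i1])
        (by rw [Matrix.det_fin_two, i2]; ring)
        (by
          calc B' * (V⁻¹ * R₂) = V⁻¹ * (S₁ * R₁) * (V * V⁻¹) * R₂ := by
                rw [hB'e]; simp only [Matrix.mul_assoc]
            _ = V⁻¹ * (S₁ * R) := by
                rw [hVV.2, Matrix.mul_one, h1]; simp only [Matrix.mul_assoc]
            _ = V⁻¹ * R₂ * B := by rw [c1, Matrix.mul_assoc])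
        (by
          have e : B' ^ l = V⁻¹ * (S₁ * R₁) ^ l * V := by
            have h5 : (S₁ * R₁) * V = V * B' := hVB.symm
            have h6 := pow_intertwine h5 l
            rw [Matrix.mul_assoc, h6, ← Matrix.mul_assoc, hVV.1, Matrix.one_mul]
          rw [e, ← c2]
          simp only [Matrix.mul_assoc])
        hlt
      exact hQ.trans hfin

theorem se_Q_all (T D : ℤ) (hT0 : 0 < T) (hD0 : D ≠ 0) (hTD : 500 * |D| ≤ T ^ 2)
    (hns : ¬ IsSquare (T ^ 2 + 4 * D)) (l : ℕ) (n : ℕ) :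
    ∀ (A B R S : Matrix (Fin 2) (Fin 2) ℤ), NN A → NN B → A.trace = T → A.det = -D →
      A * R = R * B → R * S = A ^ l → R.det.natAbs ≤ n → Q A B := by
  rcases lt_or_gt_of_ne hD0 with h | h
  · rw [abs_of_neg h] at hTD
    exact se_Q_gen T D hD0
      (fun A R S hA hT hD hRS => linkP A R S T D hA hT hD hT0 h hTD hns hRS)
      (fun A A'' hA hA'' hs hT hD => sim_QP hA hA'' hs hT hD hT0 h hTD hns) l n
  · rw [abs_of_pos h] at hTD
    exact se_Q T D hT0 h hTD hns l n

end Pool.Agent.Y321.SE2
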