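import Pool.Agent.Y321.SE2.Conn

/-!
# Presentations on wide cones, the other sign
-/

set_option autoImplicit false

namespace Pool.Agent.Y321.SE2

open Matrix Pool.Agent.TH441.SSE2

/-- Extended fan lemma for a nonnegative corner entry. -/
lemma fan_level_neg (z b c y j l : ℤ) (hz : 1 ≤ z) (hc : 1 ≤ c) (hj : z ≤ j * c)
    (hj' : j * c < z + c) (hl : 1 ≤ l) (hlj : l ≤ j)
    (h1 : |b| + 1 ≤ l * (y - z - c - 4 * z)) :
    Q (K1 (-z) b c y j)
      (W (-z) b c y l (-((z + 1) / 2)) (((z + 1) / 2 + l - 1) / l)) := by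
  obtain ⟨A, hAdef⟩ : ∃ A, A = (z + 1) / 2 := ⟨_, rfl⟩
  rw [← hAdef]
  have hA1 : z ≤ 2 * A := by omega
  have hA2 : 2 * A ≤ z + 1 := by omega
  have hb := abs_nonneg b
  have hbl := neg_abs_le b
  have hbu := le_abs_self b
  have hZ : 1 ≤ y - z - c - 4 * z := by
    by_contra hneg
    push Not at hneg
    nlinarith
  have hj1 : 1 ≤ j := le_trans hl hlj
  have hjx : j ≤ z := by
    have : (j - 1) * c ≤ z - 1 := by linarith
    nlinarith
  have hT : ∀ m : ℤ, 1 ≤ m → A ≤ m * ((A + m - 1) / m) ∧ m * ((A + m - 1) / m) ≤ A + m - 1 :=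
    fun m hm => ceil_spec A m hm
  have hbm : ∀ m : ℤ, l ≤ m → |b| + 1 ≤ m * (y - z - c - 4 * z) := by
    intro m hm
    have : l * (y - z - c - 4 * z) ≤ m * (y - z - c - 4 * z) :=
      mul_le_mul_of_nonneg_right hm (by linarith)
    linarith
  have hx2 : ∀ k : ℤ, 0 ≤ k → b + k * (-z) - 2 * k * (-A) ≤ |b| + k ∧
      -(|b| + k) ≤ b + k * (-z) - 2 * k * (-A) := by
    intro k hk
    have e1 : 0 ≤ k * (2 * A - z) := mul_nonneg hk (by linarith)
    have e2 : 0 ≤ k * (z + 1 - 2 * A) := mul_nonneg hk (by linarith)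
    constructor <;> linarith
  -- start
  have s1 : Q (K1 (-z) b c y j) (W (-z) b c y j 0 0) := by
    refine move_start (-z) b c y j ⟨by linarith, by linarith, by linarith⟩ ?_
    have hbj := hbm j hlj
    have e13 : 0 ≤ j * z := mul_nonneg (by linarith) (by linarith)
    have e14 : 0 ≤ j * (z + c - 1 - j * c) := mul_nonneg (by linarith) (by linarith)
    exact InH.of_abs (B := |b|) (l := j * z) hj1 (by linarith) (by linarith) hb
      (by linarith) (by nlinarith)
  have s2 : Q (W (-z) b c y j 0 0) (W (-z) b c y j (-A) ((A + j - 1) / j)) := by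
    obtain ⟨h5, h6⟩ := hT j hj1
    obtain ⟨t, ht⟩ : ∃ t, t = (A + j - 1) / j := ⟨_, rfl⟩
    rw [← ht] at h5 h6 ⊢
    have h := move_add (-z) b c y j 0 0 (-A) t (by linarith)
      ⟨le_refl _, by simp, by simp⟩ ?_ ?_ ?_
    · simpa using h.symm
    · exact ⟨nonneg_of_mul hj1 (by linarith) h5, by linarith, by linarith⟩
    · have hbj := hbm j hlj
      have hh := hx2 j (by linarith)
      rw [zero_add, zero_add]
      refine InH.of_abs hj1 hh.1 hh.2 hb (by linarith) ?_
      have e1 : 2 * j * t ≤ 3 * z := by nlinarith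
      have e2 : 0 ≤ j * (3 * z - 2 * j * t) := mul_nonneg (by linarith) (by linarith)
      have e3 : 0 ≤ j * (z + c - 1 - j * c) := mul_nonneg (by linarith) (by linarith)
      have e4 : 0 ≤ j * z := mul_nonneg (by linarith) (by linarith)
      nlinarith
    · exact ⟨by linarith, by linarith, by linarith⟩
  -- descent
  have hshift : ∀ m t : ℤ, 1 ≤ m → 0 ≤ t → A ≤ m * t → InH m (-A - -z) (t + c) := by
    intro m t hm ht h5
    have h : m * (t + c) = m * t + m * c := by ring
    have h' : 1 * 1 ≤ m * c := mul_le_mul hm hc (by norm_num) (by linarith)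
    exact ⟨by linarith, by linarith, by linarith⟩
  have key : ∀ n : ℕ, ∀ m : ℤ, l ≤ m → m + n = j →
      Q (K1 (-z) b c y j) (W (-z) b c y m (-A) ((A + m - 1) / m)) := by
    intro n
    induction n with
    | zero =>
      intro m hm hmj
      have : m = j := by simpa using hmj
      rw [this]
      exact s1.trans s2
    | succ n ih =>
      intro m hlm hmj
      push_cast at hmj
      have hm : 1 ≤ m := le_trans hl hlm
      have hlj' : m + 1 ≤ j := by omega
      have h3 := ih (m + 1) (by linarith) (by linarith)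
      obtain ⟨h5, h6⟩ := hT m hm
      obtain ⟨h7, h8⟩ := hT (m + 1) (by linarith)
      obtain ⟨t, ht⟩ : ∃ t, t = (A + m - 1) / m := ⟨_, rfl⟩
      obtain ⟨u, hu⟩ : ∃ u, u = (A + (m + 1) - 1) / (m + 1) := ⟨_, rfl⟩
      rw [← ht] at h5 h6
      rw [← hu] at h7 h8 h3
      rw [← ht]
      have hApos : 1 ≤ A := by linarith
      have ht0 : 1 ≤ t := pos_of_mul hm hApos h5
      have hu0 : 1 ≤ u := pos_of_mul (by linarith) hApos h7
      have hut : u ≤ t := le_of_ceil hm ht0 h5 (by linarith)
      have htA : t ≤ A := by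
        have : m * (t - 1) ≤ A - 1 := by linarith
        nlinarith
      have hmx : m ≤ z - 1 := by linarith
      have hst : |b| + (m + 1) ≤ m * (y - (m + 1) * c - 2 * (m + 1) * t) := by
        have hbm' := hbm m hlm
        have e1 : (m + 1) * c ≤ j * c := mul_le_mul_of_nonneg_right hlj' (by linarith)
        have e2 : 2 * (m + 1) * t ≤ 4 * z - 2 := by nlinarith
        have e3 : y - z - c - 4 * z + z + 3 ≤ y - (m + 1) * c - 2 * (m + 1) * t + z := by
          linarith
        have e4 : m * (y - z - c - 4 * z + 3) ≤ m * (y - (m + 1) * c - 2 * (m + 1) * t) :=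
          mul_le_mul_of_nonneg_left (by linarith) (by linarith)
        nlinarith
      have hh := hx2 (m + 1) (by linarith)
      have hmid : InH m (b + (m + 1) * (-z) - 2 * (m + 1) * (-A))
          (y - (m + 1) * c - 2 * (m + 1) * t) :=
        InH.of_abs hm hh.1 hh.2 hb (by linarith) hst
      have h9 : Q (W (-z) b c y (m + 1) (-A) t) (W (-z) b c y (m + 1) (-A) u) := by
        have hz : 0 ≤ (m + 1) * (t - u) := mul_nonneg (by linarith) (by linarith)
        have h := move_add (-z) b c y (m + 1) (-A) u 0 (t - u) (by linarith)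
          ⟨by linarith, by linarith, by linarith⟩ ⟨by linarith, by linarith, hz⟩ ?_ ?_
        · simpa using h
        · rw [add_zero, add_sub_cancel]
          exact hmid.mono (by linarith)
        · exact hshift _ _ (by linarith) (by linarith) h7
      have h10 : Q (W (-z) b c y (m + 1) (-A) t) (W (-z) b c y m (-A) t) := by
        exact move_shrink (-z) b c y (m + 1) m (-A) t (by linarith) (by linarith)
          ⟨by linarith, by linarith, by linarith⟩ hmid (hshift _ _ hm (by linarith) h5)
      exact (h3.trans h9.symm).trans h10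
  have hfin := key (j - l).toNat l le_rfl (by
    rw [Int.toNat_of_nonneg (by linarith)]; ring)
  exact hfin

/-- All valid presentations at level `l` are linked to the canonical one. -/
lemma hl_conn_neg (z b c y l s t : ℤ) (hz : 1 ≤ z) (hc : 1 ≤ c) (hl : 1 ≤ l)
    (hb : |b| ≤ l * (y - z - l * c - 6 * l))
    (h1 : InH l s t) (h2 : InH l (s - -z) (t + c))
    (h3 : InH l (b + l * (-z) - 2 * l * s) (y - l * c - 2 * l * t)) :
    Q (W (-z) b c y l s t)
      (W (-z) b c y l (-((z + 1) / 2)) (((z + 1) / 2 + l - 1) / l)) := by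
  obtain ⟨A, hAdef⟩ : ∃ A, A = (z + 1) / 2 := ⟨_, rfl⟩
  rw [← hAdef]
  have hA1 : z ≤ 2 * A := by omega
  have hA2 : 2 * A ≤ z + 1 := by omega
  obtain ⟨h5, h6⟩ := ceil_spec A l hl
  obtain ⟨u, hu⟩ : ∃ u, u = (A + l - 1) / l := ⟨_, rfl⟩
  rw [← hu] at h5 h6 ⊢
  have hbl := neg_abs_le b
  have hbu := le_abs_self b
  obtain ⟨h11, h12, h13⟩ := h1
  obtain ⟨h21, h22, h23⟩ := h2
  obtain ⟨h31, h32, h33⟩ := h3
  have hlc : 0 ≤ l * c := mul_nonneg (by linarith) (by linarith)
  have hu0 : 0 ≤ u := nonneg_of_mul hl (by linarith) h5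
  -- canonical point is valid
  have c1 : InH l (-A) u := mkInH hl (by linarith) (by linarith)
  have c2 : InH l (-A - -z) (u + c) := mkInH hl (by linarith) (by linarith)
  have hl2 : 0 ≤ l * (A + l - 1 - l * u) := mul_nonneg (by linarith) (by linarith)
  have hl3 : 0 ≤ l * (z + 1 - 2 * A) := mul_nonneg (by linarith) (by linarith)
  have hl4 : 0 ≤ l * (2 * A - z) := mul_nonneg (by linarith) (by linarith)
  have hll : 0 ≤ l * (l - 1) := mul_nonneg (by linarith) (by linarith)
  have hlx : 0 ≤ l * z := mul_nonneg (by linarith) (by linarith)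
  have c3 : InH l (b + l * (-z) - 2 * l * (-A)) (y - l * c - 2 * l * u) :=
    mkInH hl (by nlinarith) (by nlinarith)
  have cc : ∀ s' t' : ℤ, InH l (s' - -A) (t' - u) →
      InH l (b + l * (-z) - 2 * l * s') (y - l * c - 2 * l * t') →
      Q (W (-z) b c y l s' t') (W (-z) b c y l (-A) u) := by
    intro s' t' h h'
    have := move_add (-z) b c y l (-A) u (s' - -A) (t' - u) (by linarith) c1 h (by
      rw [add_sub_cancel, add_sub_cancel]; exact h') c2
    rw [add_sub_cancel, add_sub_cancel] at this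
    exact this
  have pp : ∀ s' t' : ℤ, InH l (s' - s) (t' - t) →
      InH l (b + l * (-z) - 2 * l * s') (y - l * c - 2 * l * t') →
      Q (W (-z) b c y l s' t') (W (-z) b c y l s t) := by
    intro s' t' h h'
    have := move_add (-z) b c y l s t (s' - s) (t' - t) (by linarith) ⟨h11, h12, h13⟩ h (by
      rw [add_sub_cancel, add_sub_cancel]; exact h') ⟨h21, h22, h23⟩
    rw [add_sub_cancel, add_sub_cancel] at this
    exact this
  rcases le_or_gt (l * u + -A) (l * t + s) with ha | ha
  · rcases le_or_gt (l * u - -A) (l * t - s) with hbb | hbb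
    · -- above the canonical point
      exact cc s t (mkInH hl (by linarith) (by linarith)) ⟨h31, h32, h33⟩
    · -- raise `β`
      obtain ⟨h7, h8⟩ := ceil_spec ((l * u - -A) - (l * t - s)) (2 * l) (by linarith)
      obtain ⟨k, hk⟩ : ∃ k, k = ((l * u - -A) - (l * t - s) + 2 * l - 1) / (2 * l) := ⟨_, rfl⟩
      rw [← hk] at h7 h8
      have hk0 : 0 ≤ l * k := by nlinarith
      have e1 : 0 ≤ l * ((l * u - -A) - (l * t - s) + 2 * l - 1 - 2 * l * k) :=
        mul_nonneg (by linarith) (by linarith)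
      have hX : InH l (b + l * (-z) - 2 * l * (s - k * l)) (y - l * c - 2 * l * (t + k)) := by
        refine mkInH hl (by nlinarith) ?_
        nlinarith
      have q1 := cc (s - k * l) (t + k) (mkInH hl (by linarith) (by linarith)) hX
      have q2 := pp (s - k * l) (t + k) (mkInH hl (by linarith) (by linarith)) hX
      exact q2.symm.trans q1
  · rcases le_or_gt (l * u - -A) (l * t - s) with hbb | hbb
    · -- raise `α`
      obtain ⟨h7, h8⟩ := ceil_spec ((l * u + -A) - (l * t + s)) (2 * l) (by linarith)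
      obtain ⟨k, hk⟩ : ∃ k, k = ((l * u + -A) - (l * t + s) + 2 * l - 1) / (2 * l) := ⟨_, rfl⟩
      rw [← hk] at h7 h8
      have hk0 : 0 ≤ l * k := by nlinarith
      have e1 : 0 ≤ l * ((l * u + -A) - (l * t + s) + 2 * l - 1 - 2 * l * k) :=
        mul_nonneg (by linarith) (by linarith)
      have hX : InH l (b + l * (-z) - 2 * l * (s + k * l)) (y - l * c - 2 * l * (t + k)) := by
        refine mkInH hl ?_ (by nlinarith)
        nlinarith
      have q1 := cc (s + k * l) (t + k) (mkInH hl (by linarith) (by linarith)) hX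
      have q2 := pp (s + k * l) (t + k) (mkInH hl (by linarith) (by linarith)) hX
      exact q2.symm.trans q1
    · -- below the canonical point
      exact (pp (-A) u (mkInH hl (by linarith) (by linarith)) c3).symm

/-- Regime (b): `l c < z`. -/
lemma hl_b_neg (z b c y l s t : ℤ) (hz : 1 ≤ z) (hc : 1 ≤ c) (hl : 1 ≤ l) (hlc : l * c < z)
    (hb : |b| + 1 ≤ l * (y - z - c - 7 * z))
    (h1 : InH l s t) (h2 : InH l (s - -z) (t + c))
    (h3 : InH l (b + l * (-z) - 2 * l * s) (y - l * c - 2 * l * t)) :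
    Q (W (-z) b c y l s t) (K1 (-z) b c y (cd z c)) := by
  obtain ⟨h4, h5⟩ := cd_spec z c hc
  have hlj : l ≤ cd z c := by
    have : l * c < cd z c * c := by linarith
    exact (lt_of_mul_lt_mul_right this (by linarith)).le
  have hlx : l ≤ z - 1 := by nlinarith
  have hlx' : 0 ≤ l * z := mul_nonneg (by linarith) (by linarith)
  have q1 := fan_level_neg z b c y (cd z c) l hz hc h4 h5 hl hlj (by nlinarith)
  have q2 := hl_conn_neg z b c y l s t hz hc hl (by
    have e1 : 0 ≤ l * (z - 1 - l) := mul_nonneg (by linarith) (by linarith)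
    have e2 : 0 ≤ l * (z - 1 - l * c) := mul_nonneg (by linarith) (by linarith)
    have e3 : 0 ≤ l * (c - 1) := mul_nonneg (by linarith) (by linarith)
    nlinarith) h1 h2 h3
  exact q2.trans q1.symm

end Pool.Agent.Y321.SE2
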