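import Pool.Agent.Y321.SEP.HLP
import Pool.Agent.Y321.SE2.Link

/-!
# The link lemmas through wide and narrow cones, the other sign
-/

set_option autoImplicit false

namespace Pool.Agent.Y321.SE2

open Matrix Pool.Agent.TH441.SSE2

/-- The wide link. -/
lemma link_H_neg (R S : Matrix (Fin 2) (Fin 2) ℤ) (l z b c y : ℤ) (hl : 1 ≤ l) (hc : 1 ≤ c)
    (hR1 : InH l (R 0 0) (R 1 0)) (hR2 : InH l (R 0 1) (R 1 1))
    (hS1 : l * |S 0 0| ≤ S 0 1) (hS2 : l * |S 1 0| ≤ S 1 1)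
    (hP : R * S = !![z, b; c, y]) (hz : 0 ≤ z)
    (hreg : z ≤ l * c ∨ |b| + 1 ≤ l * (y - z - c - 7 * z)) :
    ∃ A' : Matrix (Fin 2) (Fin 2) ℤ, Sim A' !![z, b; c, y] ∧ Q (S * R) A' := by
  have e : (!![z, b; c, y] : Matrix (Fin 2) (Fin 2) ℤ) = !![- -z, b; c, y] := by rw [neg_neg]
  rw [e] at hP ⊢
  obtain ⟨s, t, h1, h2, h3, h4⟩ := link_W R S l (-z) b c y hl hR1 hR2 hS1 hS2 hP
  rcases le_or_gt z (l * c) with h | h
  · exact ⟨K1 (-z) b c y l, K1_sim _ _ _ _ _,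
      h4.trans (hl_a (-z) b c y l s t (by linarith) (by linarith) (by linarith) (by linarith)
        h1 h3)⟩
  · have hreg' : |b| + 1 ≤ l * (y - z - c - 7 * z) := by
      rcases hreg with h5 | h5
      · exact absurd h (by linarith)
      · exact h5
    have hz1 : 1 ≤ z := by
      have : 0 ≤ l * c := mul_nonneg (by linarith) (by linarith)
      linarith
    exact ⟨K1 (-z) b c y (cd z c), K1_sim _ _ _ _ _,
      h4.trans (hl_b_neg z b c y l s t hz1 hc hl h hreg' h1 h2 h3)⟩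

/-- The narrow link. -/
lemma link_N_neg (R S : Matrix (Fin 2) (Fin 2) ℤ) (l z b c y : ℤ) (hl : 1 ≤ l) (hb : b ≠ 0)
    (hR1 : l * |R 0 0| ≤ R 1 0) (hR2 : l * |R 0 1| ≤ R 1 1)
    (hS1 : InH l (S 0 0) (S 0 1)) (hS2 : InH l (S 1 0) (S 1 1))
    (hP : R * S = !![z, b; c, y]) (hz : 0 ≤ z)
    (hreg : z ≤ l * |b| ∨ |c| + 1 ≤ l * (y - z - |b| - 7 * z)) :
    ∃ A' : Matrix (Fin 2) (Fin 2) ℤ, Sim A' !![z, b; c, y] ∧ Q (S * R) A' := by
  have hPt : Sᵀ * Rᵀ = !![z, c; b, y] := by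
    rw [← Matrix.transpose_mul, hP]
    ext i j; fin_cases i <;> fin_cases j <;> simp
  have fin : ∀ A' : Matrix (Fin 2) (Fin 2) ℤ, Sim A' !![z, c; b, y] → Q (Rᵀ * Sᵀ) A' →
      ∃ A' : Matrix (Fin 2) (Fin 2) ℤ, Sim A' !![z, b; c, y] ∧ Q (S * R) A' := by
    intro A' h1 h2
    refine ⟨A'ᵀ, ?_, ?_⟩
    · have := h1.transpose
      have e : (!![z, c; b, y] : Matrix (Fin 2) (Fin 2) ℤ)ᵀ = !![z, b; c, y] := by
        ext i j; fin_cases i <;> fin_cases j <;> simp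
      rw [e] at this
      exact this
    · have := h2.transpose
      rw [← Matrix.transpose_mul, Matrix.transpose_transpose] at this
      exact this
  rcases lt_or_gt_of_ne hb with hneg | hpos
  · -- flip the sign of the first vector
    have hab : |b| = -b := abs_of_neg hneg
    rw [hab] at hreg
    obtain ⟨A', h1, h2⟩ := link_H_neg (!![-1, 0; 0, 1] * Sᵀ) (Rᵀ * !![-1, 0; 0, 1]) l z (-c)
      (-b) y hl (by omega)
      (by
        obtain ⟨h1, h2, h3⟩ := hS1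
        refine ⟨?_, ?_, ?_⟩ <;> simp [Matrix.mul_apply, Fin.sum_univ_two] <;> linarith)
      (by
        obtain ⟨h1, h2, h3⟩ := hS2
        refine ⟨?_, ?_, ?_⟩ <;> simp [Matrix.mul_apply, Fin.sum_univ_two] <;> linarith)
      (by simpa [Matrix.mul_apply, Fin.sum_univ_two] using hR1)
      (by simpa [Matrix.mul_apply, Fin.sum_univ_two] using hR2)
      (by
        have : (!![-1, 0; 0, 1] * Sᵀ) * (Rᵀ * !![-1, 0; 0, 1]) =
            (!![-1, 0; 0, 1] : Matrix (Fin 2) (Fin 2) ℤ) * (Sᵀ * Rᵀ) * !![-1, 0; 0, 1] := by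
          simp only [Matrix.mul_assoc]
        rw [this, hPt]
        ext i j; fin_cases i <;> fin_cases j <;> simp [Matrix.mul_apply, Fin.sum_univ_two])
      hz (by rw [abs_neg]; exact hreg)
    refine fin A' ?_ ?_
    · refine h1.trans ⟨!![-1, 0; 0, 1], by simp [Matrix.det_fin_two], ?_⟩
      ext i j; fin_cases i <;> fin_cases j <;> simp [Matrix.mul_apply, Fin.sum_univ_two]
    · have : Rᵀ * !![-1, 0; 0, 1] * (!![-1, 0; 0, 1] * Sᵀ) = Rᵀ * Sᵀ := by
        have e : (!![-1, 0; 0, 1] : Matrix (Fin 2) (Fin 2) ℤ) * !![-1, 0; 0, 1] = 1 := by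
          ext i j; fin_cases i <;> fin_cases j <;> simp [Matrix.mul_apply, Fin.sum_univ_two]
        calc Rᵀ * !![-1, 0; 0, 1] * (!![-1, 0; 0, 1] * Sᵀ)
            = Rᵀ * (!![-1, 0; 0, 1] * !![-1, 0; 0, 1]) * Sᵀ := by
              simp only [Matrix.mul_assoc]
          _ = Rᵀ * Sᵀ := by rw [e, Matrix.mul_one]
      rw [this] at h2
      exact h2
  · have hab : |b| = b := abs_of_pos hpos
    rw [hab] at hreg
    obtain ⟨A', h1, h2⟩ := link_H_neg Sᵀ Rᵀ l z c b y hl (by omega)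
      (by simpa using hS1) (by simpa using hS2) (by simpa using hR1) (by simpa using hR2)
      hPt hz hreg
    exact fin A' h1 h2

end Pool.Agent.Y321.SE2
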