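import Pool.Agent.Y321.SEP.CoreP
import Pool.Agent.Y321.SEP.Edge
import Pool.Agent.Y321.SE2.Main

/-!
# The link theorem for positive determinant (`D < 0` is minus the determinant)
-/

set_option autoImplicit false

namespace Pool.Agent.Y321.SE2

open Matrix Pool.Agent.TH441.SSE2

/-- Every matrix on the river reaches a balanced one. -/
lemma bal_allP (T D : ℤ) (hT0 : 0 < T) (hD0 : D < 0)
    (hns : ¬ IsSquare (T ^ 2 + 4 * D)) (n : ℕ) : ∀ (α β γ δ : ℤ), 1 ≤ β → 1 ≤ γ →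
    T = α + δ → D = β * γ - α * δ → β + γ ≤ n → Bal α β γ δ := by
  induction n with
  | zero => intro α β γ δ h1 h2 _ _ h3; push_cast at h3; linarith
  | succ n ih =>
    have main : ∀ (α β γ δ : ℤ), 1 ≤ β → 1 ≤ γ → T = α + δ → D = β * γ - α * δ →
        β + γ ≤ n + 1 → 5 * α < T → Bal α β γ δ := by
      intro α β γ δ hβ hγ hT hD hn hα
      obtain ⟨hα1, hδ1⟩ := diag_pos (T := T) (D := -D) hβ hγ hT (by rw [hD]; ring) hT0
        (by linarith)
      rcases le_or_gt (5 * β) (3 * T) with h1 | h1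
      · exact bal_lo' α β γ δ hβ hγ (by linarith) (by linarith) (by linarith)
      · have hw := sum_ne_zero hns hT hD
        rcases lt_or_gt_of_ne hw with h2 | h2
        · -- type 1
          apply Bal.step1
          exact ih _ _ _ _ (by linarith) hγ (by linarith) (by rw [hD]; ring) (by linarith)
        · -- type 2
          apply Bal.step2
          obtain ⟨hα2, hδ2⟩ := diag_pos (T := T) (D := -D) (a := α + β) (b := β)
            (c := γ + δ - α - β) (d := δ - β) hβ (by linarith) (by linarith)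
            (by rw [hD]; ring) hT0 (by linarith)
          rcases le_or_gt T (5 * (δ - β)) with h3 | h3
          · exact Bal.of _ _ _ _ hβ (by linarith) (by linarith) (by linarith)
          · -- `δ₂` small
            have hinv : β * (γ + δ - α - β) = D + (α + β) * (δ - β) := by rw [hD]; ring
            have hbd : 5 * ((α + β) * (δ - β)) ≤ T * T := by
              have h5 : (α + β) * (5 * (δ - β)) ≤ T * T :=
                mul_le_mul (by linarith) h3.le (by linarith) (by linarith)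
              linarith
            have h9 : 5 * (γ + δ - α - β) ≤ 3 * T := by
              have h4 : (3 * T) * (γ + δ - α - β) ≤ (5 * β) * (γ + δ - α - β) :=
                mul_le_mul_of_nonneg_right h1.le (by linarith)
              have h5 : T * (5 * (γ + δ - α - β)) ≤ T * (3 * T) := by
                have e1 : (5 * β) * (γ + δ - α - β) = 5 * (β * (γ + δ - α - β)) := by ring
                have e2 : (3 * T) * (γ + δ - α - β) = 3 * (T * (γ + δ - α - β)) := by ring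
                have e3 : T * (5 * (γ + δ - α - β)) = 5 * (T * (γ + δ - α - β)) := by ring
                have e4 : T * (3 * T) = 3 * (T * T) := by ring
                have e5 : 0 ≤ T * (γ + δ - α - β) := mul_nonneg hT0.le (by linarith)
                rw [e1, hinv, e2] at h4
                rw [e3, e4]
                linarith
              exact le_of_mul_le hT0 h5
            apply Bal.swap
            exact bal_lo' _ _ _ _ (by linarith) hβ (by linarith) (by linarith) (by linarith)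
    intro α β γ δ hβ hγ hT hD hn
    push_cast at hn
    rcases lt_or_ge (5 * α) T with h1 | h1
    · exact main α β γ δ hβ hγ hT hD hn h1
    · rcases lt_or_ge (5 * δ) T with h2 | h2
      · apply Bal.swap
        exact main δ γ β α hγ hβ (by linarith) (by rw [hD]; ring) (by linarith) h2
      · exact Bal.of _ _ _ _ hβ hγ (by linarith) (by linarith)

lemma offdiag_posP {A : Matrix (Fin 2) (Fin 2) ℤ} {T D : ℤ} (hA : NN A) (hT : A.trace = T)
    (hD : A.det = -D) (hns : ¬ IsSquare (T ^ 2 + 4 * D)) : 1 ≤ A 0 1 ∧ 1 ≤ A 1 0 := by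
  rw [Matrix.det_fin_two] at hD
  rw [Matrix.trace_fin_two] at hT
  obtain ⟨h1, h2⟩ := off_ne_zero (a := A 0 0) (b := A 0 1) (c := A 1 0) (d := A 1 1) hns hT.symm
    (by linarith)
  have h3 := hA 0 1
  have h4 := hA 1 0
  constructor <;> omega

lemma sim_QP {A A'' : Matrix (Fin 2) (Fin 2) ℤ} {T D : ℤ} (hA : NN A) (hA'' : NN A'')
    (hs : Sim A'' A) (hT : A.trace = T) (hD : A.det = -D) (hT0 : 0 < T) (hD0 : D < 0)
    (hTD : 500 * -D ≤ T ^ 2) (hns : ¬ IsSquare (T ^ 2 + 4 * D)) : Q A A'' := by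
  obtain ⟨U, hU, hUA⟩ := hs
  obtain ⟨i1, i2⟩ := inv_entries hU hUA.symm hT hD
  have hdet : A''.det = -D := by rw [Matrix.det_fin_two, i2]; ring
  have htr : A''.trace = T := by rw [Matrix.trace_fin_two]; exact i1.symm
  obtain ⟨p1, p2⟩ := offdiag_posP hA hT hD hns
  obtain ⟨p3, p4⟩ := offdiag_posP hA'' htr hdet hns
  rw [Matrix.trace_fin_two] at hT
  rw [Matrix.det_fin_two] at hD
  have hAeta := Matrix.eta_fin_two A
  have hA''eta := Matrix.eta_fin_two A''
  have hUeta := Matrix.eta_fin_two U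
  have hUdet : U 0 0 * U 1 1 - U 0 1 * U 1 0 = 1 ∨ U 0 0 * U 1 1 - U 0 1 * U 1 0 = -1 := by
    rw [← Matrix.det_fin_two]
    exact Int.isUnit_iff.mp hU
  rcases hUdet with h1 | h1
  · have h := river_one T (-D) hT0 (by linarith) (by linarith) (A 0 0) (A 0 1) (A 1 0) (A 1 1)
      (U 0 0) (U 0 1) (U 1 0) (U 1 1) (A'' 0 0) (A'' 0 1) (A'' 1 0) (A'' 1 1) p1 p2
      hT.symm (by linarith) i1 (by linarith) h1 p3 p4
      (by rw [← hAeta, ← hUeta, ← hA''eta]; exact hUA.symm)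
    rw [← hAeta, ← hA''eta] at h
    exact h
  · have h2 : !![A 0 0, A 0 1; A 1 0, A 1 1] * !![U 0 1, U 0 0; U 1 1, U 1 0] =
        !![U 0 1, U 0 0; U 1 1, U 1 0] * !![A'' 1 1, A'' 1 0; A'' 0 1, A'' 0 0] := by
      have k00 := congrFun (congrFun hUA 0) 0
      have k01 := congrFun (congrFun hUA 0) 1
      have k10 := congrFun (congrFun hUA 1) 0
      have k11 := congrFun (congrFun hUA 1) 1
      simp only [Matrix.mul_apply, Fin.sum_univ_two] at k00 k01 k10 k11
      ext i j; fin_cases i <;> fin_cases j <;>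
        simp [Matrix.mul_apply, Fin.sum_univ_two] <;> linarith
    have h := river_one T (-D) hT0 (by linarith) (by linarith) (A 0 0) (A 0 1) (A 1 0) (A 1 1)
      (U 0 1) (U 0 0) (U 1 1) (U 1 0) (A'' 1 1) (A'' 1 0) (A'' 0 1) (A'' 0 0) p1 p2
      hT.symm (by linarith) (by linarith) (by linarith) (by linarith) p4 p3 h2
    rw [← hAeta] at h
    have h3 := Q.swap (A'' 0 0) (A'' 0 1) (A'' 1 0) (A'' 1 1) (hA'' 0 0) (hA'' 0 1) (hA'' 1 0)
      (hA'' 1 1)
    rw [← hA''eta] at h3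
    exact h.trans h3.symm

theorem linkP (A R S : Matrix (Fin 2) (Fin 2) ℤ) (T D : ℤ) (hA : NN A) (hT : A.trace = T)
    (hD : A.det = -D) (hT0 : 0 < T) (hD0 : D < 0) (hTD : 500 * -D ≤ T ^ 2)
    (hns : ¬ IsSquare (T ^ 2 + 4 * D)) (hRS : A = R * S) :
    ∃ B' : Matrix (Fin 2) (Fin 2) ℤ, NN B' ∧ Sim B' (S * R) ∧ Q A B' := by
  obtain ⟨hb, hc⟩ := offdiag_posP hA hT hD hns
  have hRdet : R.det ≠ 0 := by
    intro h
    rw [hRS, Matrix.det_mul, h, zero_mul] at hD
    linarith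
  have hT' : (S * R).trace = T := by rw [Matrix.trace_mul_comm, ← hRS]; exact hT
  have hD' : (S * R).det = -D := by rw [Matrix.det_mul, mul_comm, ← Matrix.det_mul, ← hRS, hD]
  -- Hermite form
  obtain ⟨V0, p0, r0, t0, hV0, hRV0, hp0, ht0, hr0, hrp0⟩ := hermite R hRdet
  obtain ⟨B0, hB0⟩ : ∃ B0, B0 = V0⁻¹ * (S * R) * V0 := ⟨_, rfl⟩
  have hB0' : (S * R) * V0 = V0 * B0 := by
    rw [hB0, ← Matrix.mul_assoc, ← Matrix.mul_assoc, (inv_mul_of_det_one hV0).2, Matrix.one_mul]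
  obtain ⟨i1, i2⟩ := inv_entries hV0 hB0' hT' hD'
  have hAB0 : A * (R * V0) = (R * V0) * B0 := by
    rw [Matrix.mul_assoc R V0 B0, ← hB0', ← Matrix.mul_assoc, ← Matrix.mul_assoc, hRS,
      Matrix.mul_assoc R S R]
  have hAeta := Matrix.eta_fin_two A
  rw [hRV0, hAeta, Matrix.eta_fin_two B0] at hAB0
  have hγ0 : 1 ≤ B0 1 0 := by
    have e10 := congrFun (congrFun hAB0 1) 0
    simp [Matrix.mul_apply, Fin.sum_univ_two] at e10
    have h1 : 0 < A 1 0 * p0 := mul_pos (by linarith) hp0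
    rw [e10] at h1
    exact (mul_pos_iff_of_pos_left ht0).mp h1
  obtain ⟨V1, α1, β1, γ1, δ1, hV1, hNN1, hB1, hβ1, hγ1⟩ := mstart T D hns (r0 + 1).toNat
    (A 0 0) (A 0 1) (A 1 0) (A 1 1) p0 r0 0 t0 (B0 0 0) (B0 0 1) (B0 1 0) (B0 1 1) hb hr0 hrp0
    le_rfl ht0.le ht0 hγ0 i1 i2 hAB0 (Int.self_le_toNat _)
  rw [← Matrix.eta_fin_two B0] at hB1 hAB0
  rw [← hAeta] at hAB0
  -- balanced matrix
  have hV01 : IsUnit (V0 * V1).det := by
    rw [Matrix.det_mul, hV1, mul_one]; exact hV0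
  have hB1' : (S * R) * (V0 * V1) = (V0 * V1) * !![α1, β1; γ1, δ1] := by
    rw [← Matrix.mul_assoc, hB0', Matrix.mul_assoc, hB1, Matrix.mul_assoc]
  obtain ⟨j1, j2⟩ := inv_entries hV01 hB1' hT' hD'
  simp at j1 j2
  obtain ⟨V2, α2, β2, γ2, δ2, hV2nn, hV2, hB2, hβ2, hγ2, hbal1, hbal2⟩ :=
    bal_allP T D hT0 hD0 hns (β1 + γ1).toNat α1 β1 γ1 δ1 hβ1 hγ1 j1 j2
      (Int.self_le_toNat _)
  obtain ⟨V, hVd⟩ : ∃ V, V = V0 * V1 * V2 := ⟨_, rfl⟩
  have hVu : IsUnit V.det := by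
    rw [hVd, Matrix.det_mul, hV2, mul_one]; exact hV01
  have hBV : (S * R) * V = V * !![α2, β2; γ2, δ2] := by
    rw [hVd, ← Matrix.mul_assoc, hB1', Matrix.mul_assoc, hB2]
    simp only [Matrix.mul_assoc]
  obtain ⟨k1, k2⟩ := inv_entries hVu hBV hT' hD'
  simp at k1 k2
  -- the change of basis
  obtain ⟨R2, hR2⟩ : ∃ R2, R2 = R * V := ⟨_, rfl⟩
  have hR2' : R2 = !![p0, r0; 0, t0] * V1 * V2 := by
    rw [hR2, hVd, ← hRV0]; simp only [Matrix.mul_assoc]
  have hR2nn : NN R2 := by rw [hR2']; exact NN_mul hNN1 hV2nn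
  have hR2det : 0 < R2.det := by
    rw [hR2', Matrix.det_mul, Matrix.det_mul, hV1, hV2, mul_one, mul_one, Matrix.det_fin_two_of]
    have := mul_pos hp0 ht0
    linarith
  have hAR2 : A * R2 = R2 * !![α2, β2; γ2, δ2] := by
    rw [hR2, Matrix.mul_assoc R V, ← hBV, ← Matrix.mul_assoc, ← Matrix.mul_assoc, hRS,
      Matrix.mul_assoc R S R]
  have hR2eta := Matrix.eta_fin_two R2
  obtain ⟨U, a', b', c', d', p', r', s', t', hU, hAU, hR3, hb', hc', hs', hsp', hr', hrt'⟩ :=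
    dom (R2 0 0 + R2 0 1 + R2 1 0 + R2 1 1).toNat (A 0 0) (A 0 1) (A 1 0) (A 1 1) (R2 0 0)
      (R2 0 1) (R2 1 0) (R2 1 1) α2 β2 γ2 δ2 hb hc (hR2nn 0 0) (hR2nn 0 1) (hR2nn 1 0)
      (hR2nn 1 1) (by rw [← Matrix.det_fin_two]; exact hR2det) hβ2 hγ2
      (by rw [← hAeta, ← hR2eta]; exact hAR2) (Int.self_le_toNat _)
  rw [← hAeta] at hAU
  rw [← hR2eta] at hR3
  have hUu : IsUnit U.det := by rw [hU]; exact isUnit_one
  obtain ⟨l1, l2⟩ := inv_entries hUu hAU hT hD
  simp at l1 l2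
  obtain ⟨S3, hS3⟩ : ∃ S3, S3 = V⁻¹ * S * U := ⟨_, rfl⟩
  have hVV := inv_mul_of_det_one hVu
  have hUU := inv_mul_of_det_one hUu
  have hSR3 : S3 * !![p', r'; s', t'] = !![α2, β2; γ2, δ2] := by
    calc S3 * !![p', r'; s', t'] = V⁻¹ * S * (U * !![p', r'; s', t']) := by
          rw [hS3]; simp only [Matrix.mul_assoc]
      _ = V⁻¹ * (S * R) * V := by rw [← hR3, hR2]; simp only [Matrix.mul_assoc]
      _ = _ := conj_eq hVu hBV
  have hRS3 : !![p', r'; s', t'] * S3 = !![a', b'; c', d'] := by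
    calc !![p', r'; s', t'] * S3 = (U⁻¹ * U) * (!![p', r'; s', t'] * S3) := by
          rw [hUU.1, Matrix.one_mul]
      _ = U⁻¹ * ((U * !![p', r'; s', t']) * S3) := by simp only [Matrix.mul_assoc]
      _ = U⁻¹ * (R * (V * V⁻¹) * S * U) := by
          rw [← hR3, hR2, hS3]; simp only [Matrix.mul_assoc]
      _ = U⁻¹ * A * U := by rw [hVV.2, Matrix.mul_one, ← hRS, Matrix.mul_assoc]
      _ = _ := conj_eq hUu hAU
  have hS3eta := Matrix.eta_fin_two S3
  obtain ⟨e, he⟩ : ∃ e, e = S3 0 0 := ⟨_, rfl⟩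
  obtain ⟨f, hf⟩ : ∃ f, f = S3 0 1 := ⟨_, rfl⟩
  obtain ⟨g, hg⟩ : ∃ g, g = S3 1 0 := ⟨_, rfl⟩
  obtain ⟨h, hh⟩ : ∃ h, h = S3 1 1 := ⟨_, rfl⟩
  rw [← he, ← hf, ← hg, ← hh] at hS3eta
  rw [hS3eta] at hSR3 hRS3
  have m00 := congrFun (congrFun hSR3 0) 0
  have m01 := congrFun (congrFun hSR3 0) 1
  have m10 := congrFun (congrFun hSR3 1) 0
  have m11 := congrFun (congrFun hSR3 1) 1
  have n00 := congrFun (congrFun hRS3 0) 0
  have n01 := congrFun (congrFun hRS3 0) 1
  have n10 := congrFun (congrFun hRS3 1) 0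
  have n11 := congrFun (congrFun hRS3 1) 1
  simp [Matrix.mul_apply, Fin.sum_univ_two] at m00 m01 m10 m11 n00 n01 n10 n11
  have hE1 : (p' * t' - r' * s') * (e * h - f * g) = -D := by
    rw [k2, ← m00, ← m01, ← m10, ← m11]; ring
  have hq : 0 < p' * t' - r' * s' := by
    have h1 := congrArg Matrix.det hR3
    rw [Matrix.det_mul, hU, one_mul, Matrix.det_fin_two_of] at h1
    rw [← h1]; exact hR2det
  have hE : 0 < e * h - f * g := by
    have h1 : 0 < -D := by linarith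
    rw [← hE1] at h1
    exact (mul_pos_iff_of_pos_left hq).mp h1
  have hw : (p' - s') * (e + f) - (t' - r') * (g + h) ≠ 0 := by
    have h1 := sum_ne_zero hns l1 l2
    intro h2
    apply h1
    rw [← n00, ← n01, ← n10, ← n11]
    linear_combination -h2
  obtain ⟨A'', hs1, hs2⟩ := core_linkP p' r' s' t' e f g h T hs' hsp' hr' hrt'
    (by rw [n10]; exact hc') (by rw [n01]; exact hb') (by rw [m01]; exact hβ2)
    (by rw [m10]; exact hγ2) (by rw [m00, m11]; exact k1)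
    (by rw [m00, k1]; exact hbal1) (by rw [m11, k1]; exact hbal2) hT0 hE
    (by rw [hE1]; exact hTD) hw
  rw [hSR3] at hs2
  rw [hRS3] at hs1
  obtain ⟨hα1, hδ1⟩ := diag_pos (T := T) (D := -D) hβ2 hγ2 k1 (by rw [k2]; ring) hT0
    (by linarith)
  have hB2nn : NN (!![α2, β2; γ2, δ2] : Matrix (Fin 2) (Fin 2) ℤ) := by
    intro i j; fin_cases i <;> fin_cases j <;> simp <;> linarith
  have hA''nn := Q_NN hs2 hB2nn
  have hsimA : Sim A'' A := hs1.trans ⟨U, hUu, hAU.symm⟩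
  have hQ := sim_QP hA hA''nn hsimA hT hD hT0 hD0 hTD hns
  exact ⟨_, hB2nn, ⟨V, hVu, hBV.symm⟩, hQ.trans hs2.symm⟩

end Pool.Agent.Y321.SE2
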