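import Pool.Agent.Y321.SEP.FinalP
import Pool.Agent.Y321.SE2.Trans

/-!
# Shift equivalence over `ℤ` gives a chain over the nonnegative integers
-/

set_option autoImplicit false

namespace Pool.Agent.Y321.SE2

open Matrix Pool.Agent.TH441.SSE2

/-- Shift equivalence over `ℤ` implies a chain, for `2 × 2` matrices with
`0 < 500 * |det| ≤ tr ^ 2` and nonsquare discriminant. -/
theorem Q_of_seZ_all (A B : Matrix (Fin 2) (Fin 2) ℕ)
    (hquad : 500 * |(A.map (Nat.cast : ℕ → ℤ)).det| ≤ (A.map (Nat.cast : ℕ → ℤ)).trace ^ 2)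
    (hns : ¬ IsSquare ((A.map (Nat.cast : ℕ → ℤ)).trace ^ 2 -
      4 * (A.map (Nat.cast : ℕ → ℤ)).det))
    (h : ∃ l, 1 ≤ l ∧ ∃ (R : Matrix (Fin 2) (Fin 2) ℤ) (S : Matrix (Fin 2) (Fin 2) ℤ),
      (A.map (Nat.cast : ℕ → ℤ)) ^ l = R * S ∧ (B.map (Nat.cast : ℕ → ℤ)) ^ l = S * R ∧
      A.map (Nat.cast : ℕ → ℤ) * R = R * B.map (Nat.cast : ℕ → ℤ) ∧
      S * A.map (Nat.cast : ℕ → ℤ) = B.map (Nat.cast : ℕ → ℤ) * S) :
    Q (A.map (Nat.cast : ℕ → ℤ)) (B.map (Nat.cast : ℕ → ℤ)) := by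
  obtain ⟨l, hl, R, S, e1, e2, e3, e4⟩ := h
  obtain ⟨A', hA'⟩ : ∃ A', A' = A.map (Nat.cast : ℕ → ℤ) := ⟨_, rfl⟩
  obtain ⟨B', hB'⟩ : ∃ B', B' = B.map (Nat.cast : ℕ → ℤ) := ⟨_, rfl⟩
  have hAn : NN A' := fun i j => by rw [hA']; simp
  have hBn : NN B' := fun i j => by rw [hB']; simp
  rw [← hA'] at hquad hns e1 e3 ⊢
  rw [← hB'] at e3 ⊢
  have hD0 : A'.det ≠ 0 := by
    intro h
    apply hns
    rw [h]
    exact ⟨A'.trace, by ring⟩
  have hT0 : 0 < A'.trace := by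
    have h0 : 0 ≤ A'.trace := by
      rw [Matrix.trace_fin_two]; exact add_nonneg (hAn 0 0) (hAn 1 1)
    rcases h0.lt_or_eq with h | h
    · exact h
    · rw [← h] at hquad
      have := abs_pos.mpr hD0
      linarith
  exact se_Q_all A'.trace (-A'.det) hT0 (neg_ne_zero.mpr hD0) (by rw [abs_neg]; exact hquad)
    (by
      have : A'.trace ^ 2 + 4 * -A'.det = A'.trace ^ 2 - 4 * A'.det := by ring
      rw [this]; exact hns)
    l _ A' B' R S hAn hBn rfl (by ring) e3 e1.symm le_rfl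

end Pool.Agent.Y321.SE2
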